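import Pool.Agent.Helper38.RC.LS2

/-!
Exponential sums over sets of natural numbers which avoid an arc of residues: the fourth moment
over the fractions with denominator `k m` exceeds the fourth moment over the fractions with
denominator `m` by a constant factor.
-/

set_option autoImplicit false

open Finset Real

namespace Pool.Agent.Helper7.ET

open Pool.Agent.Helper25.RC (repF cong quad_le)
open Pool.Agent.Helper38.RC (expSum sum_exp_mod)

/-- `e(u) = exp(2 π i u)` -/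
noncomputable def e (u : ℝ) : ℂ := Complex.exp (((2 * π * u : ℝ) : ℂ) * Complex.I)

theorem e_add (u v : ℝ) : e (u + v) = e u * e v := by
  unfold e
  rw [← Complex.exp_add]
  congr 1
  push_cast
  ring

theorem e_zero : e 0 = 1 := by
  unfold e
  simp

theorem e_natCast (n : ℕ) : e n = 1 := by
  unfold e
  rw [Complex.exp_eq_one_iff]
  exact ⟨n, by push_cast; ring⟩

theorem norm_e (u : ℝ) : ‖e u‖ = 1 := by
  unfold e
  rw [Complex.norm_exp_ofReal_mul_I]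

theorem expSum_eq (S : Finset ℕ) (u : ℝ) : expSum S u = ∑ a ∈ S, e (a * u) := by
  unfold expSum e
  refine Finset.sum_congr rfl fun a _ => ?_
  congr 1
  push_cast
  ring

theorem sum_e {q : ℕ} (hq : 0 < q) (m n : ℕ) :
    ∑ a ∈ range q, e (((m : ℝ) - n) * ((a : ℝ) / q)) = if m ≡ n [MOD q] then (q : ℂ) else 0 := by
  rw [← sum_exp_mod hq m n]
  refine Finset.sum_congr rfl fun a _ => ?_
  unfold e
  congr 2
  push_cast
  ring

theorem normSq_expSum (S : Finset ℕ) (u : ℝ) :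
    ((‖expSum S u‖ ^ 2 : ℝ) : ℂ) = ∑ p ∈ S ×ˢ S, e (((p.1 : ℝ) - p.2) * u) := by
  have h2 : ((‖expSum S u‖ ^ 2 : ℝ) : ℂ) = expSum S u * (starRingEnd ℂ) (expSum S u) := by
    rw [Complex.mul_conj, Complex.normSq_eq_norm_sq]
  rw [h2]
  unfold expSum e
  rw [map_sum, Finset.sum_mul_sum, ← Finset.sum_product']
  refine Finset.sum_congr rfl (fun p _ => ?_)
  rw [← Complex.exp_conj, ← Complex.exp_add]
  congr 1
  rw [map_mul, Complex.conj_I, Complex.conj_ofReal]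
  push_cast
  ring

theorem expSum_add_natCast (S : Finset ℕ) (u : ℝ) (n : ℕ) : expSum S (u + n) = expSum S u := by
  rw [expSum_eq, expSum_eq]
  refine Finset.sum_congr rfl fun a _ => ?_
  rw [mul_add, e_add]
  have h : e ((a : ℝ) * (n : ℝ)) = 1 := by
    have := e_natCast (a * n)
    push_cast at this
    exact this
  rw [h, mul_one]

theorem expSum_zero (S : Finset ℕ) : expSum S 0 = #S := by
  rw [expSum_eq]
  simp [e_zero]

/-- the kernel at the fractions with denominator `M` -/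
noncomputable def ker (M m l : ℕ) : ℝ := ‖expSum (range m) ((l : ℝ) / M)‖ ^ 2

theorem ker_nonneg (M m l : ℕ) : 0 ≤ ker M m l := by
  unfold ker
  positivity

theorem ker_zero (M m : ℕ) : ker M m 0 = (m : ℝ) ^ 2 := by
  unfold ker
  rw [Nat.cast_zero, zero_div, expSum_zero, card_range]
  simp

/-- the kernel annihilates sets which avoid the arc -/
theorem ker_annihilate {M m s s₀ : ℕ} (hM : 0 < M)
    (h : ∀ i < m, ∀ j < m, ¬ (i + s ≡ j + s₀ [MOD M])) :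
    ∑ l ∈ range M, (ker M m l : ℂ) * e (((s : ℝ) - s₀) * ((l : ℝ) / M)) = 0 := by
  have h1 : ∀ l ∈ range M, (ker M m l : ℂ) * e (((s : ℝ) - s₀) * ((l : ℝ) / M)) =
      ∑ p ∈ range m ×ˢ range m,
        e ((((p.1 + s : ℕ) : ℝ) - ((p.2 + s₀ : ℕ) : ℝ)) * ((l : ℝ) / M)) := by
    intro l _
    unfold ker
    rw [normSq_expSum, Finset.sum_mul]
    refine Finset.sum_congr rfl fun p _ => ?_
    rw [← e_add]
    congr 1
    push_cast
    ring
  rw [Finset.sum_congr rfl h1, Finset.sum_comm]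
  refine Finset.sum_eq_zero fun p hp => ?_
  rw [mem_product, mem_range, mem_range] at hp
  rw [sum_e hM, if_neg (h p.1 hp.1 p.2 hp.2)]

theorem ker_mul {k m l : ℕ} (hk : 0 < k) (hm : 0 < m) (hl0 : 0 < l) (hl : l < m) :
    ker (k * m) m (k * l) = 0 := by
  unfold ker
  have hk' : (k : ℝ) ≠ 0 := by exact_mod_cast hk.ne'
  have hm' : (m : ℝ) ≠ 0 := by exact_mod_cast hm.ne'
  have h1 : expSum (range m) (((k * l : ℕ) : ℝ) / ((k * m : ℕ) : ℝ)) = 0 := by
    rw [expSum_eq]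
    have h2 := sum_e hm l 0
    have h3 : ¬ (l ≡ 0 [MOD m]) := by
      intro h
      rw [Nat.modEq_zero_iff_dvd] at h
      exact absurd (Nat.le_of_dvd hl0 h) (not_le.2 hl)
    rw [if_neg h3] at h2
    rw [← h2]
    refine Finset.sum_congr rfl fun a _ => ?_
    congr 1
    push_cast
    field_simp
    ring
  rw [h1]
  simp

theorem ker_coset {k m : ℕ} (hk : 0 < k) (hm : 0 < m) (c : ℕ) :
    ∑ j ∈ range m, ker (k * m) m (k * j + c) = (m : ℝ) ^ 2 := by
  have hk' : (k : ℝ) ≠ 0 := by exact_mod_cast hk.ne'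
  have hm' : (m : ℝ) ≠ 0 := by exact_mod_cast hm.ne'
  have h0 : ((∑ j ∈ range m, ker (k * m) m (k * j + c) : ℝ) : ℂ) = (((m : ℝ) ^ 2 : ℝ) : ℂ) := by
    rw [Complex.ofReal_sum]
    have h1 : ∀ j ∈ range m, ((ker (k * m) m (k * j + c) : ℝ) : ℂ) =
        ∑ p ∈ range m ×ˢ range m, e (((p.1 : ℝ) - p.2) * ((c : ℝ) / (k * m))) *
          e (((p.1 : ℝ) - p.2) * ((j : ℝ) / m)) := by
      intro j _
      unfold ker
      rw [normSq_expSum]
      refine Finset.sum_congr rfl fun p _ => ?_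
      rw [← e_add]
      congr 1
      push_cast
      field_simp
      ring
    rw [Finset.sum_congr rfl h1, Finset.sum_comm]
    have h2 : ∀ p ∈ range m ×ˢ range m,
        ∑ j ∈ range m, e (((p.1 : ℝ) - p.2) * ((c : ℝ) / (k * m))) *
          e (((p.1 : ℝ) - p.2) * ((j : ℝ) / m)) = if p.1 = p.2 then (m : ℂ) else 0 := by
      intro p hp
      rw [mem_product, mem_range, mem_range] at hp
      rw [← Finset.mul_sum, sum_e hm]
      by_cases h : p.1 = p.2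
      · rw [if_pos h, h]
        simp [e_zero, Nat.ModEq.refl]
      · rw [if_neg h, if_neg, mul_zero]
        intro h'
        apply h
        have := h'
        unfold Nat.ModEq at this
        rwa [Nat.mod_eq_of_lt hp.1, Nat.mod_eq_of_lt hp.2] at this
    rw [Finset.sum_congr rfl h2, Finset.sum_product]
    have h3 : ∀ x ∈ range m, ∑ y ∈ range m, (if x = y then (m : ℂ) else 0) = m := by
      intro x hx
      rw [Finset.sum_ite_eq, if_pos hx]
    rw [Finset.sum_congr rfl h3, Finset.sum_const, card_range, nsmul_eq_mul]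
    push_cast
    ring
  exact_mod_cast h0

theorem sum_range_mul_add {R : Type} [AddCommMonoid R] (g : ℕ → R) (k m : ℕ) :
    ∑ l ∈ range (k * m), g l = ∑ c ∈ range k, ∑ j ∈ range m, g (k * j + c) := by
  rw [Finset.sum_comm]
  induction m with
  | zero => simp
  | succ m ih =>
    rw [Finset.sum_range_succ, ← ih, Nat.mul_succ, Finset.sum_range_add]

theorem sum_shift {R : Type} [AddCommGroup R] {h : ℕ → R} {m : ℕ}
    (hper : ∀ a, h (a + m) = h a) (j : ℕ) :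
    ∑ a ∈ range m, h (a + j) = ∑ a ∈ range m, h a := by
  induction j with
  | zero => rfl
  | succ j ih =>
    rw [← ih]
    have h1 := Finset.sum_range_succ (fun a => h (a + j)) m
    have h2 := Finset.sum_range_succ' (fun a => h (a + j)) m
    rw [h1] at h2
    have h3 : h (m + j) = h (0 + j) := by
      rw [zero_add, add_comm m j, hper]
    rw [h3] at h2
    have h4 := add_right_cancel h2
    rw [h4]
    refine Finset.sum_congr rfl fun a _ => ?_
    congr 1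
    omega

/-- fourth moment over the fractions with denominator `M` -/
noncomputable def mom (S : Finset ℕ) (M : ℕ) : ℝ := ∑ l ∈ range M, ‖expSum S ((l : ℝ) / M)‖ ^ 4

theorem mom_one (S : Finset ℕ) : mom S 1 = (#S : ℝ) ^ 4 := by
  unfold mom
  simp [expSum_zero]

theorem mom_nonneg (S : Finset ℕ) (M : ℕ) : 0 ≤ mom S M := by
  unfold mom
  positivity

theorem mom_eq (S : Finset ℕ) {k m : ℕ} (hk : 0 < k) (hm : 0 < m) :
    mom S m = ∑ j ∈ range m, ‖expSum S (((k * j + 0 : ℕ) : ℝ) / ((k * m : ℕ) : ℝ))‖ ^ 4 := by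
  have hk' : (k : ℝ) ≠ 0 := by exact_mod_cast hk.ne'
  have hm' : (m : ℝ) ≠ 0 := by exact_mod_cast hm.ne'
  unfold mom
  refine Finset.sum_congr rfl fun j _ => ?_
  congr 3
  push_cast
  rw [add_zero]
  field_simp

theorem mom_mono (S : Finset ℕ) {k m : ℕ} (hk : 0 < k) (hm : 0 < m) : mom S m ≤ mom S (k * m) := by
  rw [mom_eq S hk hm]
  unfold mom
  rw [sum_range_mul_add]
  exact Finset.single_le_sum (f := fun c => ∑ j ∈ range m,
    ‖expSum S (((k * j + c : ℕ) : ℝ) / ((k * m : ℕ) : ℝ))‖ ^ 4)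
    (fun c _ => by positivity) (mem_range.2 hk)

/-- the power mean inequality with exponent four -/
theorem mean_four {ι : Type} (s : Finset ι) (w z : ι → ℝ) (hw : ∀ i ∈ s, 0 ≤ w i) :
    (∑ i ∈ s, w i * z i) ^ 4 ≤ (∑ i ∈ s, w i) ^ 3 * ∑ i ∈ s, w i * z i ^ 4 := by
  have hW : 0 ≤ ∑ i ∈ s, w i := Finset.sum_nonneg hw
  have h1 : (∑ i ∈ s, w i * z i) ^ 2 ≤ (∑ i ∈ s, w i) * ∑ i ∈ s, w i * z i ^ 2 :=
    Finset.sum_sq_le_sum_mul_sum_of_sq_eq_mul s hw (fun i hi => mul_nonneg (hw i hi) (sq_nonneg _))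
      (fun i _ => by ring)
  have h2 : (∑ i ∈ s, w i * z i ^ 2) ^ 2 ≤ (∑ i ∈ s, w i) * ∑ i ∈ s, w i * z i ^ 4 :=
    Finset.sum_sq_le_sum_mul_sum_of_sq_eq_mul s hw (fun i hi => mul_nonneg (hw i hi) (by positivity))
      (fun i _ => by ring)
  calc (∑ i ∈ s, w i * z i) ^ 4 = ((∑ i ∈ s, w i * z i) ^ 2) ^ 2 := by ring
    _ ≤ ((∑ i ∈ s, w i) * ∑ i ∈ s, w i * z i ^ 2) ^ 2 := by gcongr
    _ = (∑ i ∈ s, w i) ^ 2 * (∑ i ∈ s, w i * z i ^ 2) ^ 2 := by ring
    _ ≤ (∑ i ∈ s, w i) ^ 2 * ((∑ i ∈ s, w i) * ∑ i ∈ s, w i * z i ^ 4) := by gcongr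
    _ = _ := by ring

/-- the pointwise inequality -/
theorem arc_point (S : Finset ℕ) {m n s₀ : ℕ} (hm : 0 < m)
    (harc : ∀ s ∈ S, ∀ i < m, ∀ j < m, ¬ (i + s ≡ j + s₀ [MOD (n + 1) * m])) (u : ℝ) :
    (m : ℝ) ^ 2 * ‖expSum S u‖ ≤ ∑ c ∈ range n, ∑ j ∈ range m,
      ker ((n + 1) * m) m ((n + 1) * j + (c + 1)) *
        ‖expSum S (u + (((n + 1) * j + (c + 1) : ℕ) : ℝ) / (((n + 1) * m : ℕ) : ℝ))‖ := by
  set M : ℕ := (n + 1) * m with hM
  have hMpos : 0 < M := by positivity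
  set g : ℕ → ℂ := fun l => (ker M m l : ℂ) * (e (-(s₀ : ℝ) * ((l : ℝ) / M)) *
    expSum S (u + (l : ℝ) / M)) with hg
  have h0 : ∑ l ∈ range M, g l = 0 := by
    have h1 : ∀ l ∈ range M, g l = ∑ s ∈ S, e (s * u) *
        ((ker M m l : ℂ) * e (((s : ℝ) - s₀) * ((l : ℝ) / M))) := by
      intro l _
      simp only [hg]
      rw [expSum_eq, Finset.mul_sum, Finset.mul_sum]
      refine Finset.sum_congr rfl fun s _ => ?_
      have e1 : (s : ℝ) * (u + (l : ℝ) / M) = s * u + s * ((l : ℝ) / M) := by ring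
      have e2 : ((s : ℝ) - s₀) * ((l : ℝ) / M) = -(s₀ : ℝ) * ((l : ℝ) / M) + s * ((l : ℝ) / M) := by
        ring
      rw [e1, e2, e_add, e_add]
      ring
    rw [Finset.sum_congr rfl h1, Finset.sum_comm]
    refine Finset.sum_eq_zero fun s hs => ?_
    rw [← Finset.mul_sum, ker_annihilate hMpos (harc s hs), mul_zero]
  rw [hM, sum_range_mul_add, Finset.sum_range_succ'] at h0
  have h2 : ∑ j ∈ range m, g ((n + 1) * j + 0) = (m : ℂ) ^ 2 * expSum S u := by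
    rw [Finset.sum_eq_single 0]
    · simp only [hg, mul_zero, add_zero, Nat.cast_zero, zero_div, ker_zero, e_zero, one_mul]
      push_cast
      ring
    · intro j hj hj0
      simp only [hg]
      rw [add_zero, hM, ker_mul (Nat.succ_pos n) hm (Nat.pos_of_ne_zero hj0) (mem_range.1 hj)]
      simp
    · intro h
      exact absurd (mem_range.2 hm) h
  rw [h2] at h0
  have h3 : (m : ℂ) ^ 2 * expSum S u =
      - ∑ c ∈ range n, ∑ j ∈ range m, g ((n + 1) * j + (c + 1)) := by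
    linear_combination h0
  have h4 : (m : ℝ) ^ 2 * ‖expSum S u‖ = ‖(m : ℂ) ^ 2 * expSum S u‖ := by
    rw [norm_mul, norm_pow, Complex.norm_natCast]
  rw [h4, h3, norm_neg]
  refine (norm_sum_le _ _).trans (Finset.sum_le_sum fun c _ => ?_)
  refine (norm_sum_le _ _).trans (Finset.sum_le_sum fun j _ => ?_)
  simp only [hg]
  rw [norm_mul, norm_mul, norm_e, one_mul, Complex.norm_real, Real.norm_eq_abs,
    abs_of_nonneg (ker_nonneg _ _ _)]

/-- THE ARC LEMMA. -/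
theorem arc_gain (S : Finset ℕ) {m n s₀ : ℕ} (hm : 0 < m)
    (harc : ∀ s ∈ S, ∀ i < m, ∀ j < m, ¬ (i + s ≡ j + s₀ [MOD (n + 1) * m])) :
    mom S m ≤ (n : ℝ) ^ 3 * (mom S ((n + 1) * m) - mom S m) := by
  have hm' : (0 : ℝ) < m := by exact_mod_cast hm
  set M : ℕ := (n + 1) * m with hM
  have hMpos : 0 < M := by positivity
  have hM0 : (M : ℝ) ≠ 0 := by exact_mod_cast hMpos.ne'
  set P : Finset (ℕ × ℕ) := range n ×ˢ range m with hP
  set w : ℕ × ℕ → ℝ := fun p => ker M m ((n + 1) * p.2 + (p.1 + 1)) with hw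
  have hw0 : ∀ p ∈ P, 0 ≤ w p := fun p _ => ker_nonneg _ _ _
  have hW : ∑ p ∈ P, w p = n * (m : ℝ) ^ 2 := by
    rw [hP, Finset.sum_product]
    have h1 : ∀ c ∈ range n, ∑ j ∈ range m, w (c, j) = (m : ℝ) ^ 2 := fun c _ =>
      ker_coset (Nat.succ_pos n) hm (c + 1)
    rw [Finset.sum_congr rfl h1, Finset.sum_const, card_range, nsmul_eq_mul]
  -- for each `u`
  have hpt : ∀ u : ℝ, (m : ℝ) ^ 2 * ‖expSum S u‖ ^ 4 ≤ (n : ℝ) ^ 3 * ∑ p ∈ P, w p *
      ‖expSum S (u + (((n + 1) * p.2 + (p.1 + 1) : ℕ) : ℝ) / (M : ℝ))‖ ^ 4 := by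
    intro u
    have h1 := arc_point S hm harc u
    have h2 : ∑ c ∈ range n, ∑ j ∈ range m,
        ker M m ((n + 1) * j + (c + 1)) *
          ‖expSum S (u + (((n + 1) * j + (c + 1) : ℕ) : ℝ) / (M : ℝ))‖ =
        ∑ p ∈ P, w p * ‖expSum S (u + (((n + 1) * p.2 + (p.1 + 1) : ℕ) : ℝ) / (M : ℝ))‖ := by
      rw [hP, Finset.sum_product]
    rw [← hM, h2] at h1
    have h3 := mean_four P w
      (fun p => ‖expSum S (u + (((n + 1) * p.2 + (p.1 + 1) : ℕ) : ℝ) / (M : ℝ))‖) hw0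
    have h4 : ((m : ℝ) ^ 2 * ‖expSum S u‖) ^ 4 ≤ (n * (m : ℝ) ^ 2) ^ 3 * ∑ p ∈ P, w p *
        ‖expSum S (u + (((n + 1) * p.2 + (p.1 + 1) : ℕ) : ℝ) / (M : ℝ))‖ ^ 4 := by
      refine le_trans ?_ (hW ▸ h3)
      gcongr
    have h5 : (m : ℝ) ^ 6 * ((m : ℝ) ^ 2 * ‖expSum S u‖ ^ 4) ≤ (m : ℝ) ^ 6 * ((n : ℝ) ^ 3 *
        ∑ p ∈ P, w p *
          ‖expSum S (u + (((n + 1) * p.2 + (p.1 + 1) : ℕ) : ℝ) / (M : ℝ))‖ ^ 4) := by
      calc (m : ℝ) ^ 6 * ((m : ℝ) ^ 2 * ‖expSum S u‖ ^ 4) = ((m : ℝ) ^ 2 * ‖expSum S u‖) ^ 4 := by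
            ring
        _ ≤ _ := h4
        _ = _ := by ring
    exact le_of_mul_le_mul_left h5 (by positivity)
  -- sum over `u = (n + 1) a / M`
  set G : ℕ → ℝ := fun c => ∑ a ∈ range m, ‖expSum S (((((n + 1) * a + c : ℕ) : ℝ)) / (M : ℝ))‖ ^ 4
    with hG
  have hsum : ∑ a ∈ range m, ∑ p ∈ P, w p *
      ‖expSum S ((((n + 1) * a + 0 : ℕ) : ℝ) / (M : ℝ) +
        (((n + 1) * p.2 + (p.1 + 1) : ℕ) : ℝ) / (M : ℝ))‖ ^ 4 =
      (m : ℝ) ^ 2 * ∑ c ∈ range n, G (c + 1) := by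
    rw [Finset.sum_comm, hP, Finset.sum_product, Finset.mul_sum]
    refine Finset.sum_congr rfl fun c _ => ?_
    have h1 : ∀ j ∈ range m, ∑ a ∈ range m, w (c, j) *
        ‖expSum S ((((n + 1) * a + 0 : ℕ) : ℝ) / (M : ℝ) +
          (((n + 1) * j + (c + 1) : ℕ) : ℝ) / (M : ℝ))‖ ^ 4 = w (c, j) * G (c + 1) := by
      intro j _
      rw [← Finset.mul_sum]
      congr 1
      have h2 : ∀ a, ‖expSum S ((((n + 1) * a + 0 : ℕ) : ℝ) / (M : ℝ) +
          (((n + 1) * j + (c + 1) : ℕ) : ℝ) / (M : ℝ))‖ ^ 4 =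
          (fun a => ‖expSum S (((((n + 1) * a + (c + 1) : ℕ) : ℝ)) / (M : ℝ))‖ ^ 4) (a + j) := by
        intro a
        congr 3
        push_cast
        ring
      rw [Finset.sum_congr rfl fun a _ => h2 a]
      refine sum_shift (h := fun a =>
        ‖expSum S (((((n + 1) * a + (c + 1) : ℕ) : ℝ)) / (M : ℝ))‖ ^ 4) ?_ j
      intro a
      show ‖expSum S (((((n + 1) * (a + m) + (c + 1) : ℕ) : ℝ)) / (M : ℝ))‖ ^ 4 =
        ‖expSum S (((((n + 1) * a + (c + 1) : ℕ) : ℝ)) / (M : ℝ))‖ ^ 4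
      have h3 : ((((n + 1) * (a + m) + (c + 1) : ℕ) : ℝ)) / (M : ℝ) =
          ((((n + 1) * a + (c + 1) : ℕ) : ℝ)) / (M : ℝ) + ((1 : ℕ) : ℝ) := by
        have h4 : (((n + 1) * (a + m) + (c + 1) : ℕ) : ℝ) =
            (((n + 1) * a + (c + 1) : ℕ) : ℝ) + (M : ℝ) := by
          rw [hM]; push_cast; ring
        rw [h4, add_div, div_self hM0, Nat.cast_one]
      rw [h3, expSum_add_natCast]
    rw [Finset.sum_congr rfl h1, ← Finset.sum_mul]
    congr 1
    exact ker_coset (Nat.succ_pos n) hm (c + 1)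
  have hsum2 : (m : ℝ) ^ 2 * mom S m ≤
      (n : ℝ) ^ 3 * ((m : ℝ) ^ 2 * ∑ c ∈ range n, G (c + 1)) := by
    rw [← hsum, mom_eq S (Nat.succ_pos n) hm, Finset.mul_sum, Finset.mul_sum]
    refine Finset.sum_le_sum fun a _ => ?_
    exact hpt _
  have hG0 : mom S M = (∑ c ∈ range n, G (c + 1)) + mom S m := by
    rw [mom_eq S (Nat.succ_pos n) hm]
    show ∑ l ∈ range M, ‖expSum S ((l : ℝ) / M)‖ ^ 4 = _
    conv_lhs => rw [hM]
    rw [sum_range_mul_add, Finset.sum_range_succ']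
  have h6 : (∑ c ∈ range n, G (c + 1)) = mom S M - mom S m := by
    rw [hG0]; ring
  rw [h6] at hsum2
  have h7 : (m : ℝ) ^ 2 * mom S m ≤ (m : ℝ) ^ 2 * ((n : ℝ) ^ 3 * (mom S M - mom S m)) := by
    calc (m : ℝ) ^ 2 * mom S m ≤ _ := hsum2
      _ = _ := by ring
  exact le_of_mul_le_mul_left h7 (by positivity)

/-- the fourth moment is at most the additive energy -/
theorem mom_le_energy (S : Finset ℕ) {M x : ℕ} (hS : S ⊆ range x) (hM : 0 < M) (hx : M ≤ x) :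
    mom S M ≤ 3 * x * ∑ n ∈ range (2 * x), (repF S n : ℝ) ^ 2 := by
  have hM' : (0 : ℝ) < M := by exact_mod_cast hM
  have h1 : ∀ u : ℝ, ((‖expSum S u‖ ^ 4 : ℝ) : ℂ) = ∑ p ∈ S ×ˢ S, ∑ q ∈ S ×ˢ S,
      e ((((p.1 + p.2 : ℕ) : ℝ) - ((q.1 + q.2 : ℕ) : ℝ)) * u) := by
    intro u
    have h2 : ((‖expSum S u‖ ^ 4 : ℝ) : ℂ) =
        ((‖expSum S u‖ ^ 2 : ℝ) : ℂ) * ((‖expSum S u‖ ^ 2 : ℝ) : ℂ) := by
      rw [← Complex.ofReal_mul]
      congr 1
      ring
    rw [h2, normSq_expSum, Finset.sum_mul_sum]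
    simp only [← e_add, Finset.sum_product]
    refine Finset.sum_congr rfl fun a _ => ?_
    -- `b c d` to `c b d`
    rw [Finset.sum_comm]
    refine Finset.sum_congr rfl fun b _ => ?_
    refine Finset.sum_congr rfl fun c _ => ?_
    refine Finset.sum_congr rfl fun d _ => ?_
    congr 1
    push_cast
    ring
  have h3 : ((mom S M : ℝ) : ℂ) = (((M : ℝ) * ∑ u ∈ S ×ˢ S, ∑ v ∈ S ×ˢ S,
      (if u.1 + u.2 ≡ v.1 + v.2 [MOD M] then (1 : ℝ) else 0) : ℝ) : ℂ) := by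
    unfold mom
    rw [Complex.ofReal_sum]
    simp_rw [h1]
    rw [Finset.sum_comm, Finset.mul_sum, Complex.ofReal_sum]
    refine Finset.sum_congr rfl fun p _ => ?_
    rw [Finset.sum_comm, Finset.mul_sum, Complex.ofReal_sum]
    refine Finset.sum_congr rfl fun q _ => ?_
    rw [sum_e hM]
    split_ifs <;> simp
  have h4 : mom S M = (M : ℝ) * ∑ u ∈ S ×ˢ S, ∑ v ∈ S ×ˢ S,
      (if u.1 + u.2 ≡ v.1 + v.2 [MOD M] then (1 : ℝ) else 0) := by exact_mod_cast h3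
  rw [h4]
  calc (M : ℝ) * ∑ u ∈ S ×ˢ S, ∑ v ∈ S ×ˢ S,
      (if u.1 + u.2 ≡ v.1 + v.2 [MOD M] then (1 : ℝ) else 0)
      ≤ M * (3 * x / M * ∑ n ∈ range (2 * x), (repF S n : ℝ) ^ 2) := by
        gcongr
        exact quad_le S hS hM hx
    _ = _ := by field_simp

end Pool.Agent.Helper7.ET
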