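import Pool.Agent.Helper7.ET.Arc
import Pool.Agent.Helper73.RG.Tent

/-!
The cone of positive functions on the integers and the growth of the weighted additive energy of a
set which avoids an arc modulo several real numbers.
-/

set_option autoImplicit false

open Finset Real

namespace Pool.Agent.Helper7.ET

open Pool.Agent.Helper38.RC (expSum)

/-- a cosine series with nonnegative coefficients, constant term `1` and sum `1 / b` -/
structure Kern (ψ : ℝ → ℝ) (w : ℕ → ℝ) (b : ℝ) : Prop where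
  nonneg : ∀ h, 0 ≤ w h
  zero : w 0 = 1
  series : ∀ u, HasSum (fun h : ℕ => w h * Real.cos (2 * π * h * u)) (ψ u)
  total : HasSum w (1 / b)

/-- positive functions: every finite functional which is nonnegative on the characters is
nonnegative on `W` -/
def Pos (W : ℤ → ℝ) : Prop :=
  ∀ (ι : Type) (F : Finset ι) (c : ι → ℂ) (s : ι → ℤ),
    (∀ t : ℝ, 0 ≤ (∑ i ∈ F, c i * e ((s i : ℝ) * t)).re) →
      0 ≤ (∑ i ∈ F, c i * ((W (s i) : ℝ) : ℂ)).re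

theorem Pos.one : Pos (fun _ => 1) := by
  intro ι F c s h
  have := h 0
  simpa [e_zero] using this

theorem Pos.half_add {W W' : ℤ → ℝ} (h : Pos W) (h' : Pos W') :
    Pos (fun s => W s / 2 + W' s / 2) := by
  intro ι F c s hc
  have h1 := h ι F c s hc
  have h2 := h' ι F c s hc
  have h3 : ∑ i ∈ F, c i * (((W (s i) / 2 + W' (s i) / 2 : ℝ)) : ℂ) =
      ((1 / 2 : ℝ) : ℂ) * (∑ i ∈ F, c i * ((W (s i) : ℝ) : ℂ)) +
      ((1 / 2 : ℝ) : ℂ) * (∑ i ∈ F, c i * ((W' (s i) : ℝ) : ℂ)) := by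
    rw [Finset.mul_sum, Finset.mul_sum, ← Finset.sum_add_distrib]
    refine Finset.sum_congr rfl fun i _ => ?_
    push_cast
    ring
  rw [h3, Complex.add_re, Complex.re_ofReal_mul, Complex.re_ofReal_mul]
  positivity

theorem cos_eq_e (v : ℝ) : ((Real.cos (2 * π * v) : ℝ) : ℂ) = (e v + e (-v)) / 2 := by
  unfold e
  rw [Complex.ofReal_cos, Complex.cos]
  congr 2
  congr 1
  push_cast
  ring

/-- products with a cosine series -/
theorem Pos.mul_kern {W : ℤ → ℝ} (h : Pos W) {ψ : ℝ → ℝ} {w : ℕ → ℝ} {b : ℝ} (hk : Kern ψ w b)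
    (M : ℝ) : Pos (fun s => W s * ψ (s / M)) := by
  intro ι F c s hc
  have h1 : ∀ τ : ℝ, 0 ≤ (∑ i ∈ F, c i * e ((s i : ℝ) * τ) * ((W (s i) : ℝ) : ℂ)).re := by
    intro τ
    refine h ι F (fun i => c i * e ((s i : ℝ) * τ)) s ?_
    intro t
    have h2 := hc (τ + t)
    have h3 : ∑ i ∈ F, c i * e ((s i : ℝ) * (τ + t)) =
        ∑ i ∈ F, c i * e ((s i : ℝ) * τ) * e ((s i : ℝ) * t) := by
      refine Finset.sum_congr rfl fun i _ => ?_
      rw [mul_add, e_add]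
      ring
    rwa [h3] at h2
  have h2 : HasSum (fun n : ℕ => (∑ i ∈ F, c i * ((W (s i) : ℝ) : ℂ) *
      (((w n * Real.cos (2 * π * n * (s i / M)) : ℝ)) : ℂ)).re)
      (∑ i ∈ F, c i * ((W (s i) : ℝ) : ℂ) * ((ψ (s i / M) : ℝ) : ℂ)).re := by
    refine Complex.hasSum_re (hasSum_sum fun i _ => ?_)
    refine HasSum.mul_left _ ?_
    exact Complex.hasSum_ofReal.2 (hk.series _)
  have h3 : ∀ n : ℕ, 0 ≤ (∑ i ∈ F, c i * ((W (s i) : ℝ) : ℂ) *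
      (((w n * Real.cos (2 * π * n * (s i / M)) : ℝ)) : ℂ)).re := by
    intro n
    have h4 : ∑ i ∈ F, c i * ((W (s i) : ℝ) : ℂ) *
        (((w n * Real.cos (2 * π * n * (s i / M)) : ℝ)) : ℂ) =
        ((w n / 2 : ℝ) : ℂ) * (∑ i ∈ F, c i * e ((s i : ℝ) * (n / M)) * ((W (s i) : ℝ) : ℂ)) +
        ((w n / 2 : ℝ) : ℂ) * (∑ i ∈ F, c i * e ((s i : ℝ) * (-(n / M))) * ((W (s i) : ℝ) : ℂ)) := by
      rw [Finset.mul_sum, Finset.mul_sum, ← Finset.sum_add_distrib]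
      refine Finset.sum_congr rfl fun i _ => ?_
      have e1 : 2 * π * n * ((s i : ℝ) / M) = 2 * π * ((s i : ℝ) * (n / M)) := by ring
      have e2 : (s i : ℝ) * (-(n / M)) = -((s i : ℝ) * (n / M)) := by ring
      rw [e2, e1]
      push_cast
      rw [← Complex.ofReal_intCast (s i)]
      have e3 := cos_eq_e ((s i : ℝ) * (n / M))
      push_cast at e3
      simp only [Complex.ofReal_intCast]
      rw [e3]
      ring
    rw [h4, Complex.add_re, Complex.re_ofReal_mul, Complex.re_ofReal_mul]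
    have h5 := h1 (n / M)
    have h6 := h1 (-(n / M))
    have h7 := hk.nonneg n
    positivity
  have h4 : ∑ i ∈ F, c i * ((((fun s : ℤ => W s * ψ (s / M)) (s i) : ℝ)) : ℂ) =
      ∑ i ∈ F, c i * ((W (s i) : ℝ) : ℂ) * ((ψ (s i / M) : ℝ) : ℂ) := by
    refine Finset.sum_congr rfl fun i _ => ?_
    push_cast
    ring
  rw [h4]
  exact hasSum_le h3 hasSum_zero h2

/-- the difference of two sums of two elements -/
def sv (p : (ℕ × ℕ) × (ℕ × ℕ)) : ℤ := ((p.1.1 : ℤ) + p.1.2) - (p.2.1 + p.2.2)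

theorem fourth_eq (S : Finset ℕ) (t : ℝ) :
    ∑ p ∈ (S ×ˢ S) ×ˢ (S ×ˢ S), e ((sv p : ℝ) * t) = ((‖expSum S t‖ ^ 4 : ℝ) : ℂ) := by
  have h2 : ((‖expSum S t‖ ^ 4 : ℝ) : ℂ) =
      (expSum S t * (starRingEnd ℂ) (expSum S t)) * (expSum S t * (starRingEnd ℂ) (expSum S t)) := by
    rw [Complex.mul_conj, Complex.normSq_eq_norm_sq, ← Complex.ofReal_mul]
    congr 1
    ring
  have h3 : (expSum S t * expSum S t) * ((starRingEnd ℂ) (expSum S t) *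
      (starRingEnd ℂ) (expSum S t)) =
      ∑ p ∈ (S ×ˢ S) ×ˢ (S ×ˢ S), e ((sv p : ℝ) * t) := by
    have hc : (starRingEnd ℂ) (expSum S t) = ∑ a ∈ S, e (-((a : ℝ) * t)) := by
      rw [expSum_eq, map_sum]
      refine Finset.sum_congr rfl fun a _ => ?_
      unfold e
      rw [← Complex.exp_conj]
      congr 1
      rw [map_mul, Complex.conj_I, Complex.conj_ofReal]
      push_cast
      ring
    rw [hc, expSum_eq, Finset.sum_mul_sum, Finset.sum_mul_sum, ← Finset.sum_product',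
      ← Finset.sum_product', Finset.sum_mul_sum, ← Finset.sum_product']
    refine Finset.sum_congr rfl fun p _ => ?_
    rw [← e_add, ← e_add, ← e_add]
    unfold sv
    push_cast
    congr 1
    ring
  rw [h2, ← h3]
  ring

theorem amgm {x l : ℝ} (hx : 0 ≤ x) (hl : 0 < l) : x ≤ (x ^ 4 / l ^ 3 + 3 * l) / 4 := by
  have h1 : 0 ≤ x ^ 4 + 3 * l ^ 4 - 4 * x * l ^ 3 := by
    have : x ^ 4 + 3 * l ^ 4 - 4 * x * l ^ 3 = (x - l) ^ 2 * (x ^ 2 + 2 * x * l + 3 * l ^ 2) := by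
      ring
    rw [this]
    positivity
  have h2 : (x ^ 4 / l ^ 3 + 3 * l) / 4 - x = (x ^ 4 + 3 * l ^ 4 - 4 * x * l ^ 3) / (4 * l ^ 3) := by
    field_simp
  have h3 : 0 ≤ (x ^ 4 / l ^ 3 + 3 * l) / 4 - x := by
    rw [h2]
    positivity
  linarith

/-- one step: a gap modulo `M` -/
theorem step (S : Finset ℕ) {ψ : ℝ → ℝ} {w : ℕ → ℝ} {b : ℝ} (hk : Kern ψ w b) (hb : 0 < b)
    (hb1 : b < 1) {M u₀ : ℝ} (hgap : ∀ a ∈ S, ψ (a / M - u₀) = 0) (t : ℝ) :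
    (1 + (b / (1 - b)) ^ 3) * ‖expSum S t‖ ^ 4 ≤
      (∑ p ∈ (S ×ˢ S) ×ˢ (S ×ˢ S), ((ψ ((sv p : ℝ) / M) : ℝ) : ℂ) * e ((sv p : ℝ) * t)).re := by
  set f : ℝ → ℂ := fun u => expSum S u with hf
  set y : ℕ → ℝ := fun h => (‖f (t + h / M)‖ ^ 4 + ‖f (t - h / M)‖ ^ 4) / 2 with hy
  -- the series for the weighted energy
  have hY : HasSum (fun h : ℕ => w h * y h)
      (∑ p ∈ (S ×ˢ S) ×ˢ (S ×ˢ S), ((ψ ((sv p : ℝ) / M) : ℝ) : ℂ) * e ((sv p : ℝ) * t)).re := by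
    have h1 : HasSum (fun h : ℕ => (∑ p ∈ (S ×ˢ S) ×ˢ (S ×ˢ S),
        (((w h * Real.cos (2 * π * h * ((sv p : ℝ) / M)) : ℝ)) : ℂ) * e ((sv p : ℝ) * t)).re)
        (∑ p ∈ (S ×ˢ S) ×ˢ (S ×ˢ S), ((ψ ((sv p : ℝ) / M) : ℝ) : ℂ) * e ((sv p : ℝ) * t)).re := by
      refine Complex.hasSum_re (hasSum_sum fun p _ => ?_)
      refine HasSum.mul_right _ ?_
      exact Complex.hasSum_ofReal.2 (hk.series _)
    convert h1 using 2 with h
    have h2 : ∑ p ∈ (S ×ˢ S) ×ˢ (S ×ˢ S),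
        (((w h * Real.cos (2 * π * h * ((sv p : ℝ) / M)) : ℝ)) : ℂ) * e ((sv p : ℝ) * t) =
        ((w h * y h : ℝ) : ℂ) := by
      have h3 : ((w h * y h : ℝ) : ℂ) = ((w h / 2 : ℝ) : ℂ) *
          (((‖expSum S (t + h / M)‖ ^ 4 : ℝ) : ℂ) + ((‖expSum S (t - h / M)‖ ^ 4 : ℝ) : ℂ)) := by
        simp only [hy, hf]
        push_cast
        ring
      rw [h3, ← fourth_eq, ← fourth_eq, ← Finset.sum_add_distrib, Finset.mul_sum]
      refine Finset.sum_congr rfl fun p _ => ?_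
      have e1 : 2 * π * h * ((sv p : ℝ) / M) = 2 * π * ((sv p : ℝ) * (h / M)) := by ring
      have e2 : (sv p : ℝ) * (t + h / M) = (sv p : ℝ) * t + (sv p : ℝ) * (h / M) := by ring
      have e3 : (sv p : ℝ) * (t - h / M) = (sv p : ℝ) * t + -((sv p : ℝ) * (h / M)) := by ring
      rw [e1, e2, e3, e_add, e_add, Complex.ofReal_mul, cos_eq_e]
      push_cast
      ring
    rw [h2, Complex.ofReal_re]
  have hy0 : y 0 = ‖f t‖ ^ 4 := by
    simp [hy]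
  -- the tail
  have hY1 := (hasSum_nat_add_iff' 1).2 hY
  have hC := (hasSum_nat_add_iff' 1).2 hk.total
  simp only [Finset.sum_range_one, hk.zero, one_mul, hy0] at hY1 hC
  set R : ℝ := (∑ p ∈ (S ×ˢ S) ×ˢ (S ×ˢ S), ((ψ ((sv p : ℝ) / M) : ℝ) : ℂ) *
    e ((sv p : ℝ) * t)).re with hR
  by_cases hz : ‖f t‖ = 0
  · have hR0 : 0 ≤ R - ‖f t‖ ^ 4 := by
      refine hasSum_le (fun n => ?_) hasSum_zero hY1
      have hyn : 0 ≤ y (n + 1) := by simp only [hy]; positivity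
      exact mul_nonneg (hk.nonneg _) hyn
    have h6 : ‖expSum S t‖ = 0 := hz
    rw [hz] at hR0
    rw [h6]
    have h7 : (1 + (b / (1 - b)) ^ 3) * (0 : ℝ) ^ 4 = 0 := by ring
    rw [h7]
    have h8 : R - (0 : ℝ) ^ 4 = R := by ring
    rwa [h8] at hR0
  have hfpos : 0 < ‖f t‖ := lt_of_le_of_ne (norm_nonneg _) (Ne.symm hz)
  have hCpos : 0 < 1 / b - 1 := by
    rw [sub_pos, lt_div_iff₀ hb]
    linarith
  set C : ℝ := 1 / b - 1 with hCdef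
  set l : ℝ := ‖f t‖ / C with hl
  have hlpos : 0 < l := div_pos hfpos hCpos
  -- the vanishing identity
  set g : ℕ → ℂ := fun h => (e (-(h * u₀)) * f (t + h / M) + e (h * u₀) * f (t - h / M)) / 2 with hg
  have hG : HasSum (fun h : ℕ => (w h : ℂ) * g h) 0 := by
    have h1 : HasSum (fun h : ℕ => ∑ a ∈ S,
        (((w h * Real.cos (2 * π * h * ((a : ℝ) / M - u₀)) : ℝ)) : ℂ) * e ((a : ℝ) * t))
        (∑ a ∈ S, ((ψ ((a : ℝ) / M - u₀) : ℝ) : ℂ) * e ((a : ℝ) * t)) := by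
      refine hasSum_sum fun a _ => ?_
      refine HasSum.mul_right _ ?_
      exact Complex.hasSum_ofReal.2 (hk.series _)
    have h2 : ∑ a ∈ S, ((ψ ((a : ℝ) / M - u₀) : ℝ) : ℂ) * e ((a : ℝ) * t) = 0 := by
      refine Finset.sum_eq_zero fun a ha => ?_
      rw [hgap a ha]
      simp
    rw [h2] at h1
    convert h1 using 2 with h
    simp only [hg, hf]
    rw [expSum_eq, expSum_eq, Finset.mul_sum, Finset.mul_sum, ← Finset.sum_add_distrib,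
      Finset.sum_div, Finset.mul_sum]
    refine Finset.sum_congr rfl fun a _ => ?_
    have e1 : 2 * π * h * ((a : ℝ) / M - u₀) = 2 * π * ((a : ℝ) * (h / M) + -(h * u₀)) := by ring
    have e2 : (a : ℝ) * (t + h / M) = (a : ℝ) * t + (a : ℝ) * (h / M) := by ring
    have e3 : (a : ℝ) * (t - h / M) = (a : ℝ) * t + -((a : ℝ) * (h / M)) := by ring
    have e4 : -((a : ℝ) * (h / M) + -(h * u₀)) = -((a : ℝ) * (h / M)) + h * u₀ := by ring
    rw [e1, e2, e3, Complex.ofReal_mul, cos_eq_e, e4]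
    simp only [e_add]
    ring
  have hG1 := (hasSum_nat_add_iff' 1).2 hG
  have hg0 : (w 0 : ℂ) * g 0 = f t := by
    simp only [hg, hk.zero]
    simp [e_zero]
  rw [Finset.sum_range_one, hg0, zero_sub] at hG1
  have hB : HasSum (fun h : ℕ => (w (h + 1) * y (h + 1) / l ^ 3 + 3 * l * w (h + 1)) / 4)
      (((R - ‖f t‖ ^ 4) / l ^ 3 + 3 * l * C) / 4) :=
    ((hY1.div_const _).add (hC.mul_left _)).div_const _
  have hmain := HasSum.norm_le_of_bounded hG1 hB (fun h => by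
    rw [norm_mul, Complex.norm_real, Real.norm_eq_abs, abs_of_nonneg (hk.nonneg _)]
    have h1 : ‖g (h + 1)‖ ≤ (‖f (t + ((h + 1 : ℕ) : ℝ) / M)‖ + ‖f (t - ((h + 1 : ℕ) : ℝ) / M)‖) / 2 := by
      simp only [hg]
      rw [norm_div]
      have h2 : ‖(2 : ℂ)‖ = 2 := by simp
      rw [h2]
      have h3 := norm_add_le (e (-(((h + 1 : ℕ) : ℝ) * u₀)) * f (t + ((h + 1 : ℕ) : ℝ) / M))
        (e (((h + 1 : ℕ) : ℝ) * u₀) * f (t - ((h + 1 : ℕ) : ℝ) / M))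
      rw [norm_mul, norm_mul, norm_e, norm_e, one_mul, one_mul] at h3
      linarith
    have h4 := amgm (norm_nonneg (f (t + ((h + 1 : ℕ) : ℝ) / M))) hlpos
    have h5 := amgm (norm_nonneg (f (t - ((h + 1 : ℕ) : ℝ) / M))) hlpos
    have h6 : ‖g (h + 1)‖ ≤ (y (h + 1) / l ^ 3 + 3 * l) / 4 := by
      refine h1.trans ?_
      simp only [hy]
      have h7 : ((‖f (t + ((h + 1 : ℕ) : ℝ) / M)‖ ^ 4 + ‖f (t - ((h + 1 : ℕ) : ℝ) / M)‖ ^ 4) / 2) /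
          l ^ 3 = (‖f (t + ((h + 1 : ℕ) : ℝ) / M)‖ ^ 4 / l ^ 3 +
            ‖f (t - ((h + 1 : ℕ) : ℝ) / M)‖ ^ 4 / l ^ 3) / 2 := by ring
      rw [h7]
      linarith
    calc w (h + 1) * ‖g (h + 1)‖ ≤ w (h + 1) * ((y (h + 1) / l ^ 3 + 3 * l) / 4) :=
          mul_le_mul_of_nonneg_left h6 (hk.nonneg _)
      _ = _ := by ring)
  rw [norm_neg] at hmain
  have hlC : l * C = ‖f t‖ := by
    rw [hl]
    field_simp
  have h9 : ‖f t‖ ≤ (R - ‖f t‖ ^ 4) / l ^ 3 := by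
    have : 3 * l * C = 3 * ‖f t‖ := by rw [mul_assoc, hlC]
    rw [this] at hmain
    linarith
  rw [le_div_iff₀ (by positivity)] at h9
  have h10 : ‖f t‖ * l ^ 3 = (b / (1 - b)) ^ 3 * ‖f t‖ ^ 4 := by
    have hCb : 1 / C = b / (1 - b) := by
      rw [hCdef]
      have : (1 : ℝ) - b ≠ 0 := by linarith
      field_simp
    rw [hl, div_pow, ← hCb, div_pow, one_pow]
    ring
  rw [h10] at h9
  have h11 : (1 + (b / (1 - b)) ^ 3) * ‖expSum S t‖ ^ 4 =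
      ‖f t‖ ^ 4 + (b / (1 - b)) ^ 3 * ‖f t‖ ^ 4 := by
    simp only [hf]
    ring
  rw [h11]
  linarith

/-- the weight `∏ (1/2 + ψ(s / M i)/2)` -/
noncomputable def wt (ψ : ℝ → ℝ) (M : ℕ → ℝ) (k : ℕ) (s : ℤ) : ℝ :=
  ∏ i ∈ range k, (1 / 2 + ψ (s / M i) / 2)

theorem wt_succ (ψ : ℝ → ℝ) (M : ℕ → ℝ) (k : ℕ) (s : ℤ) :
    wt ψ M (k + 1) s = wt ψ M k s / 2 + wt ψ M k s * ψ (s / M k) / 2 := by
  unfold wt
  rw [Finset.prod_range_succ]
  ring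

theorem pos_wt {ψ : ℝ → ℝ} {w : ℕ → ℝ} {b : ℝ} (hk : Kern ψ w b) (M : ℕ → ℝ) (k : ℕ) :
    Pos (wt ψ M k) := by
  induction k with
  | zero =>
    have : wt ψ M 0 = fun _ => 1 := by
      funext s
      simp [wt]
    rw [this]
    exact Pos.one
  | succ k ih =>
    have : wt ψ M (k + 1) = fun s => wt ψ M k s / 2 + wt ψ M k s * ψ (s / M k) / 2 := by
      funext s
      exact wt_succ ψ M k s
    rw [this]
    exact Pos.half_add ih (Pos.mul_kern ih hk (M k))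

/-- GROWTH of the weighted energy. -/
theorem growth (S : Finset ℕ) {ψ : ℝ → ℝ} {w : ℕ → ℝ} {b : ℝ} (hk : Kern ψ w b) (hb : 0 < b)
    (hb1 : b < 1) (M : ℕ → ℝ) (k : ℕ)
    (hgap : ∀ i < k, ∃ u₀ : ℝ, ∀ a ∈ S, ψ (a / M i - u₀) = 0) :
    (#S : ℝ) ^ 4 * (1 + (b / (1 - b)) ^ 3 / 2) ^ k ≤
      ∑ p ∈ (S ×ˢ S) ×ˢ (S ×ˢ S), wt ψ M k (sv p) := by
  induction k with
  | zero =>
    rw [pow_zero, mul_one]
    have : ∑ p ∈ (S ×ˢ S) ×ˢ (S ×ˢ S), wt ψ M 0 (sv p) = (#S : ℝ) ^ 4 := by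
      simp [wt]
      ring
    rw [this]
  | succ k ih =>
    have ih' := ih fun i hi => hgap i (Nat.lt_succ_of_lt hi)
    obtain ⟨u₀, hu₀⟩ := hgap k (Nat.lt_succ_self k)
    set η : ℝ := (b / (1 - b)) ^ 3 with hη
    have hη0 : 0 ≤ η := by
      have : 0 < 1 - b := by linarith
      positivity
    have hpos := pos_wt hk M k ((ℕ × ℕ) × (ℕ × ℕ)) ((S ×ˢ S) ×ˢ (S ×ˢ S))
      (fun p => ((ψ ((sv p : ℝ) / M k) : ℝ) : ℂ) - (((1 + η : ℝ)) : ℂ)) sv (by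
        intro t
        have h1 := step S hk hb hb1 hu₀ t
        have h2 : ∑ p ∈ (S ×ˢ S) ×ˢ (S ×ˢ S),
            (((ψ ((sv p : ℝ) / M k) : ℝ) : ℂ) - (((1 + η : ℝ)) : ℂ)) * e ((sv p : ℝ) * t) =
            (∑ p ∈ (S ×ˢ S) ×ˢ (S ×ˢ S), ((ψ ((sv p : ℝ) / M k) : ℝ) : ℂ) * e ((sv p : ℝ) * t)) -
            (((1 + η) * ‖expSum S t‖ ^ 4 : ℝ) : ℂ) := by
          simp only [sub_mul, Finset.sum_sub_distrib]
          rw [← Finset.mul_sum, fourth_eq]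
          push_cast
          ring
        rw [h2, Complex.sub_re, Complex.ofReal_re]
        linarith)
    have h3 : (∑ p ∈ (S ×ˢ S) ×ˢ (S ×ˢ S), (((ψ ((sv p : ℝ) / M k) : ℝ) : ℂ) -
        (((1 + η : ℝ)) : ℂ)) * ((wt ψ M k (sv p) : ℝ) : ℂ)) =
        ((∑ p ∈ (S ×ˢ S) ×ˢ (S ×ˢ S), wt ψ M k (sv p) * ψ ((sv p : ℝ) / M k) -
          (1 + η) * ∑ p ∈ (S ×ˢ S) ×ˢ (S ×ˢ S), wt ψ M k (sv p) : ℝ) : ℂ) := by
      push_cast
      rw [Finset.mul_sum, ← Finset.sum_sub_distrib]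
      refine Finset.sum_congr rfl fun p _ => ?_
      ring
    rw [h3, Complex.ofReal_re] at hpos
    have h4 : ∑ p ∈ (S ×ˢ S) ×ˢ (S ×ˢ S), wt ψ M (k + 1) (sv p) =
        (∑ p ∈ (S ×ˢ S) ×ˢ (S ×ˢ S), wt ψ M k (sv p)) / 2 +
        (∑ p ∈ (S ×ˢ S) ×ˢ (S ×ˢ S), wt ψ M k (sv p) * ψ ((sv p : ℝ) / M k)) / 2 := by
      rw [Finset.sum_div, Finset.sum_div, ← Finset.sum_add_distrib]
      refine Finset.sum_congr rfl fun p _ => ?_
      rw [wt_succ]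
    rw [h4]
    set Q : ℝ := ∑ p ∈ (S ×ˢ S) ×ˢ (S ×ˢ S), wt ψ M k (sv p) with hQ
    calc (#S : ℝ) ^ 4 * (1 + η / 2) ^ (k + 1) = ((#S : ℝ) ^ 4 * (1 + η / 2) ^ k) * (1 + η / 2) := by
          ring
      _ ≤ Q * (1 + η / 2) := by gcongr
      _ = Q / 2 + ((1 + η) * Q) / 2 := by ring
      _ ≤ _ := by linarith

theorem kern_tent {b : ℝ} (hb : 0 < b) (hb1 : b ≤ 1 / 2) :
    Kern (Helper73.RG.tent b) (Helper73.RG.wt b) b where
  nonneg := fun h => Helper73.RG.wt_nonneg b h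
  zero := Helper73.RG.wt_zero b
  series := fun u => Helper73.RG.hasSum_tent hb hb1 u
  total := Helper73.RG.hasSum_wt hb hb1

/-- GROWTH of the weighted energy of a set with gaps of half width `b` modulo `M 0, M 1, ...`. -/
theorem growth_tent (S : Finset ℕ) {b : ℝ} (hb : 0 < b) (hb1 : b ≤ 1 / 2) (M : ℕ → ℝ) (k : ℕ)
    (hgap : ∀ i < k, ∃ u₀ : ℝ, ∀ a ∈ S, b ≤ |((a : ℝ) / M i - u₀) - round ((a : ℝ) / M i - u₀)|) :
    (#S : ℝ) ^ 4 * (1 + (b / (1 - b)) ^ 3 / 2) ^ k ≤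
      ∑ p ∈ (S ×ˢ S) ×ˢ (S ×ˢ S), ∏ i ∈ range k, (1 / 2 + Helper73.RG.tent b
        (((((p.1.1 : ℤ) + p.1.2) - (p.2.1 + p.2.2) : ℤ) : ℝ) / M i) / 2) := by
  refine growth S (kern_tent hb hb1) hb (by linarith) M k ?_
  intro i hi
  obtain ⟨u₀, h⟩ := hgap i hi
  exact ⟨u₀, fun a ha => Helper73.RG.tent_eq_zero hb (h a ha)⟩

end Pool.Agent.Helper7.ET
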