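import Pool.Agent.Helper7.ET.Arc
import Pool.Agent.Helper25.RC.Defs

/-!
Sets of natural numbers which avoid an interval of the circle under infinitely many rotations.
-/

set_option autoImplicit false

open Finset Real Filter

namespace Pool.Agent.Helper7.ET

open Pool.Agent.Helper25.RC (repF below rep Null mem_below below_subset_range not_null_iff
  repF_below_le)
open Pool.Agent.Helper38.RC (expSum energy_large_sieve)

theorem e_intCast (n : ℤ) : e n = 1 := by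
  unfold e
  rw [Complex.exp_eq_one_iff]
  exact ⟨n, by push_cast; ring⟩

theorem norm_e_sub_one {z ε : ℝ} (hε : 0 < ε) (h : ε ≤ Int.fract (z + ε / 2)) :
    2 * ε ≤ ‖e z - 1‖ := by
  set v : ℝ := Int.fract (z + ε / 2) - ε / 2 with hv
  have hz : z = ⌊z + ε / 2⌋ + v := by
    have := Int.floor_add_fract (z + ε / 2)
    rw [hv]
    linarith
  have h1 : e z = e v := by
    conv_lhs => rw [hz]
    rw [e_add, e_intCast, one_mul]
  have hv0 : ε / 2 ≤ v := by rw [hv]; linarith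
  have hv1 : v ≤ 1 - ε / 2 := by
    have := Int.fract_lt_one (z + ε / 2)
    rw [hv]; linarith
  have h2 : ‖e v - 1‖ = 2 * Real.sin (π * v) := by
    have h3 := Complex.norm_exp_I_mul_ofReal_sub_one (2 * π * v)
    have h4 : e v = Complex.exp (Complex.I * ((2 * π * v : ℝ) : ℂ)) := by
      unfold e
      rw [mul_comm]
    rw [h4, h3]
    have h5 : 2 * π * v / 2 = π * v := by ring
    rw [h5, Real.norm_eq_abs, abs_of_nonneg]
    have : 0 ≤ Real.sin (π * v) := by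
      apply Real.sin_nonneg_of_nonneg_of_le_pi
      · have := Real.pi_pos
        have : 0 ≤ v := by linarith
        positivity
      · have := Real.pi_pos
        nlinarith
    linarith
  rw [h1, h2]
  have hpi := Real.pi_pos
  have h6 : ε ≤ Real.sin (π * v) := by
    rcases le_total v (1 / 2) with hle | hle
    · have h7 := Real.mul_le_sin (x := π * v) (by nlinarith) (by nlinarith)
      have h8 : 2 / π * (π * v) = 2 * v := by field_simp
      rw [h8] at h7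
      linarith
    · have h7 := Real.mul_le_sin (x := π * (1 - v)) (by nlinarith) (by nlinarith)
      have h8 : 2 / π * (π * (1 - v)) = 2 * (1 - v) := by field_simp
      have h9 : Real.sin (π * (1 - v)) = Real.sin (π * v) := by
        rw [mul_sub, mul_one, Real.sin_pi_sub]
      rw [h8, h9] at h7
      linarith
  linarith

/-- the geometric sum off the gap -/
theorem geom_bound {z ε : ℝ} (hε : 0 < ε) (h : ε ≤ Int.fract (z + ε / 2)) (N : ℕ) :
    ‖expSum (range N) z‖ ≤ 1 / ε := by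
  have h1 := norm_e_sub_one hε h
  have hpow : ∀ i : ℕ, e (i * z) = e z ^ i := by
    intro i
    unfold e
    rw [← Complex.exp_nat_mul]
    congr 1
    push_cast
    ring
  have h2 : expSum (range N) z * (e z - 1) = e z ^ N - 1 := by
    rw [expSum_eq, Finset.sum_congr rfl fun i _ => hpow i]
    exact geom_sum_mul _ _
  have h3 : ‖expSum (range N) z‖ * ‖e z - 1‖ ≤ 2 := by
    rw [← norm_mul, h2]
    refine (norm_sub_le _ _).trans ?_
    rw [norm_pow, norm_e, one_pow, norm_one]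
    norm_num
  rw [le_div_iff₀ hε]
  have h4 : ‖expSum (range N) z‖ * (2 * ε) ≤ ‖expSum (range N) z‖ * ‖e z - 1‖ :=
    mul_le_mul_of_nonneg_left h1 (norm_nonneg _)
  linarith

theorem norm_expSum_le (S : Finset ℕ) (z : ℝ) : ‖expSum S z‖ ≤ #S := by
  rw [expSum_eq]
  refine (norm_sum_le _ _).trans ?_
  simp [norm_e]

theorem norm_expSum_neg (S : Finset ℕ) (z : ℝ) : ‖expSum S (-z)‖ = ‖expSum S z‖ := by
  have h : expSum S (-z) = (starRingEnd ℂ) (expSum S z) := by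
    rw [expSum_eq, expSum_eq, map_sum]
    refine Finset.sum_congr rfl fun a _ => ?_
    unfold e
    rw [← Complex.exp_conj]
    congr 1
    rw [map_mul, Complex.conj_I, Complex.conj_ofReal]
    push_cast
    ring
  rw [h, RCLike.norm_conj]

theorem norm_expSum_add_int (S : Finset ℕ) (z : ℝ) (n : ℤ) :
    ‖expSum S (z + n)‖ = ‖expSum S z‖ := by
  congr 1
  rw [expSum_eq, expSum_eq]
  refine Finset.sum_congr rfl fun a _ => ?_
  rw [mul_add, e_add]
  have h : e ((a : ℝ) * (n : ℝ)) = 1 := by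
    have := e_intCast (a * n)
    push_cast at this
    exact this
  rw [h, mul_one]

/-- A set with a gap has a large exponential sum at a small multiple of the frequency. -/
theorem gap_first (S : Finset ℕ) {ε α β : ℝ} (hε : 0 < ε) {N : ℕ} (hN : 2 / ε ^ 2 ≤ N)
    (hS' : (#(S.filter (fun n : ℕ => Int.fract (α * n - β) < ε)) : ℝ) ≤ #S / (4 * N)) :
    (#S : ℝ) / (4 * N) ≤ ∑ h ∈ Ico 1 N, ‖expSum S (h * α)‖ := by
  classical
  have hNpos : (0 : ℝ) < N := lt_of_lt_of_le (by positivity) hN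
  set γ : ℝ := β + ε / 2 with hγ
  set T : ℝ := (#S : ℝ) with hT
  have hT0' : 0 ≤ T := Nat.cast_nonneg _
  -- upper bound of the total
  have hup : ∑ n ∈ S, ‖expSum (range N) (α * n - γ)‖ ^ 2 ≤ T * (N / 2) + N ^ 2 * (T / (4 * N)) := by
    have h1 : ∀ n ∈ S, ‖expSum (range N) (α * n - γ)‖ ^ 2 ≤
        N / 2 + (if Int.fract (α * n - β) < ε then (N : ℝ) ^ 2 else 0) := by
      intro n _
      by_cases h : Int.fract (α * n - β) < ε
      · rw [if_pos h]
        have h2 := norm_expSum_le (range N) (α * n - γ)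
        rw [card_range] at h2
        have h3 : ‖expSum (range N) (α * n - γ)‖ ^ 2 ≤ (N : ℝ) ^ 2 := by
          gcongr
        have : (0 : ℝ) ≤ N / 2 := by positivity
        linarith
      · rw [if_neg h, add_zero]
        have h2 : ‖expSum (range N) (α * n - γ)‖ ≤ 1 / ε := by
          apply geom_bound hε
          have : α * n - γ + ε / 2 = α * n - β := by rw [hγ]; ring
          rw [this]
          exact not_lt.1 h
        have h3 : ‖expSum (range N) (α * n - γ)‖ ^ 2 ≤ (1 / ε) ^ 2 := by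
          gcongr
        have h4 : (1 / ε) ^ 2 ≤ N / 2 := by
          rw [div_pow, one_pow]
          have : 1 / ε ^ 2 = 2 / ε ^ 2 / 2 := by ring
          rw [this]
          linarith
        linarith
    refine (Finset.sum_le_sum h1).trans ?_
    rw [Finset.sum_add_distrib, Finset.sum_const, nsmul_eq_mul, ← Finset.sum_filter,
      Finset.sum_const, nsmul_eq_mul]
    have h5 : (#(S.filter (fun n : ℕ => Int.fract (α * n - β) < ε)) : ℝ) * (N : ℝ) ^ 2 ≤
        (T / (4 * N)) * (N : ℝ) ^ 2 := by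
      gcongr
    linarith
  -- expansion of the total
  have hexp : ((∑ n ∈ S, ‖expSum (range N) (α * n - γ)‖ ^ 2 : ℝ) : ℂ) =
      ∑ p ∈ range N ×ˢ range N, e (-(((p.1 : ℝ) - p.2) * γ)) *
        expSum S (((p.1 : ℝ) - p.2) * α) := by
    rw [Complex.ofReal_sum]
    simp_rw [normSq_expSum]
    rw [Finset.sum_comm]
    refine Finset.sum_congr rfl fun p _ => ?_
    rw [expSum_eq, Finset.mul_sum]
    refine Finset.sum_congr rfl fun n _ => ?_
    rw [← e_add]
    congr 1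
    ring
  have hsplit : ∑ p ∈ range N ×ˢ range N, e (-(((p.1 : ℝ) - p.2) * γ)) *
        expSum S (((p.1 : ℝ) - p.2) * α) = (N : ℂ) * T +
      ∑ p ∈ (range N ×ˢ range N).filter (fun p => p.1 ≠ p.2), e (-(((p.1 : ℝ) - p.2) * γ)) *
        expSum S (((p.1 : ℝ) - p.2) * α) := by
    rw [← Finset.sum_filter_add_sum_filter_not (range N ×ˢ range N) (fun p => p.1 = p.2)]
    congr 1
    have h1 : ∀ p ∈ (range N ×ˢ range N).filter (fun p => p.1 = p.2),
        e (-(((p.1 : ℝ) - p.2) * γ)) * expSum S (((p.1 : ℝ) - p.2) * α) = (T : ℂ) := by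
      intro p hp
      rw [mem_filter] at hp
      rw [hp.2, sub_self, zero_mul, zero_mul, neg_zero, e_zero, expSum_zero, one_mul]
      simp [hT]
    rw [Finset.sum_congr rfl h1, Finset.sum_const, nsmul_eq_mul]
    congr 1
    have h2 : #((range N ×ˢ range N).filter (fun p => p.1 = p.2)) = N := by
      have h3 : (range N ×ˢ range N).filter (fun p => p.1 = p.2) = (range N).image (fun i => (i, i)) := by
        ext p
        simp only [mem_filter, mem_product, mem_image, mem_range]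
        constructor
        · rintro ⟨⟨h4, h5⟩, h6⟩
          exact ⟨p.1, h4, by rw [Prod.ext_iff]; exact ⟨rfl, h6⟩⟩
        · rintro ⟨i, hi, rfl⟩
          exact ⟨⟨hi, hi⟩, rfl⟩
      rw [h3, card_image_of_injective _ (fun i j h => (Prod.ext_iff.1 h).1), card_range]
    rw [h2]
  have hlow : (N : ℝ) * T - ∑ p ∈ (range N ×ˢ range N).filter (fun p => p.1 ≠ p.2),
      ‖expSum S (((p.1 : ℝ) - p.2) * α)‖ ≤ ∑ n ∈ S, ‖expSum (range N) (α * n - γ)‖ ^ 2 := by
    have h1 : (N : ℂ) * T = ((∑ n ∈ S, ‖expSum (range N) (α * n - γ)‖ ^ 2 : ℝ) : ℂ) -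
      ∑ p ∈ (range N ×ˢ range N).filter (fun p => p.1 ≠ p.2), e (-(((p.1 : ℝ) - p.2) * γ)) *
        expSum S (((p.1 : ℝ) - p.2) * α) := by
      rw [hexp, hsplit]; ring
    have h2 : (N : ℝ) * T ≤ ‖((∑ n ∈ S, ‖expSum (range N) (α * n - γ)‖ ^ 2 : ℝ) : ℂ)‖ +
      ‖∑ p ∈ (range N ×ˢ range N).filter (fun p => p.1 ≠ p.2), e (-(((p.1 : ℝ) - p.2) * γ)) *
        expSum S (((p.1 : ℝ) - p.2) * α)‖ := by
      have h3 : (N : ℝ) * T = ‖(N : ℂ) * T‖ := by
        rw [norm_mul, Complex.norm_natCast, Complex.norm_real, Real.norm_eq_abs,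
          abs_of_nonneg hT0']
      rw [h3, h1]
      exact norm_sub_le _ _
    rw [Complex.norm_real, Real.norm_eq_abs, abs_of_nonneg (by positivity)] at h2
    have h4 : ‖∑ p ∈ (range N ×ˢ range N).filter (fun p => p.1 ≠ p.2),
        e (-(((p.1 : ℝ) - p.2) * γ)) * expSum S (((p.1 : ℝ) - p.2) * α)‖ ≤
        ∑ p ∈ (range N ×ˢ range N).filter (fun p => p.1 ≠ p.2),
          ‖expSum S (((p.1 : ℝ) - p.2) * α)‖ := by
      refine (norm_sum_le _ _).trans (le_of_eq ?_)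
      refine Finset.sum_congr rfl fun p _ => ?_
      rw [norm_mul, norm_e, one_mul]
    linarith
  -- off-diagonal terms
  have hoff : ∑ p ∈ (range N ×ˢ range N).filter (fun p => p.1 ≠ p.2),
      ‖expSum S (((p.1 : ℝ) - p.2) * α)‖ ≤ N ^ 2 * ∑ h ∈ Ico 1 N, ‖expSum S (h * α)‖ := by
    have h1 : ∀ p ∈ (range N ×ˢ range N).filter (fun p => p.1 ≠ p.2),
        ‖expSum S (((p.1 : ℝ) - p.2) * α)‖ ≤ ∑ h ∈ Ico 1 N, ‖expSum S (h * α)‖ := by
      intro p hp
      rw [mem_filter, mem_product, mem_range, mem_range] at hp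
      obtain ⟨⟨h2, h3⟩, h4⟩ := hp
      have h5 : ∃ h ∈ Ico 1 N, ‖expSum S (((p.1 : ℝ) - p.2) * α)‖ = ‖expSum S ((h : ℕ) * α)‖ := by
        rcases lt_or_gt_of_ne h4 with h | h
        · refine ⟨p.2 - p.1, mem_Ico.2 ⟨by omega, by omega⟩, ?_⟩
          rw [Nat.cast_sub h.le, ← norm_expSum_neg S (((p.2 : ℝ) - p.1) * α)]
          congr 2
          ring
        · refine ⟨p.1 - p.2, mem_Ico.2 ⟨by omega, by omega⟩, ?_⟩
          rw [Nat.cast_sub h.le]
      obtain ⟨h, hh, h6⟩ := h5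
      rw [h6]
      exact Finset.single_le_sum (f := fun h : ℕ => ‖expSum S (h * α)‖)
        (fun _ _ => norm_nonneg _) hh
    refine (Finset.sum_le_sum h1).trans ?_
    rw [Finset.sum_const, nsmul_eq_mul]
    refine mul_le_mul_of_nonneg_right ?_ (Finset.sum_nonneg fun _ _ => norm_nonneg _)
    have h7 : #((range N ×ˢ range N).filter (fun p => p.1 ≠ p.2)) ≤ N * N := by
      refine (card_filter_le _ _).trans ?_
      rw [card_product, card_range]
    have h8 : ((#((range N ×ˢ range N).filter (fun p => p.1 ≠ p.2)) : ℕ) : ℝ) ≤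
        ((N * N : ℕ) : ℝ) := by exact_mod_cast h7
    rw [sq]
    push_cast at h8
    exact h8
  have hT0 : 0 ≤ T := hT0'
  have h9 : N ^ 2 * (T / (4 * N)) = N * T / 4 := by field_simp
  have h10 : (N : ℝ) * T / 4 ≤ N ^ 2 * ∑ h ∈ Ico 1 N, ‖expSum S (h * α)‖ := by
    rw [h9] at hup
    linarith
  have h11 : (N : ℝ) ^ 2 * (T / (4 * N)) ≤ N ^ 2 * ∑ h ∈ Ico 1 N, ‖expSum S (h * α)‖ := by
    rw [h9]
    exact h10
  exact le_of_mul_le_mul_left h11 (by positivity)

theorem gap_fourth (S : Finset ℕ) {ε α β : ℝ} (hε : 0 < ε) {N : ℕ} (hN : 2 / ε ^ 2 ≤ N)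
    (hS' : (#(S.filter (fun n : ℕ => Int.fract (α * n - β) < ε)) : ℝ) ≤ #S / (4 * N)) :
    (#S : ℝ) ^ 4 / (256 * N ^ 7) ≤ ∑ h ∈ Ico 1 N, ‖expSum S (h * α)‖ ^ 4 := by
  have hNpos : (0 : ℝ) < N := lt_of_lt_of_le (by positivity) hN
  have h1 := gap_first S hε hN hS'
  have h2 := mean_four (Ico 1 N) (fun _ => (1 : ℝ)) (fun h => ‖expSum S (h * α)‖)
    (fun _ _ => zero_le_one)
  simp only [one_mul, Finset.sum_const, nsmul_eq_mul, mul_one, Nat.card_Ico] at h2
  have h3 : ((#S : ℝ) / (4 * N)) ^ 4 ≤ (N : ℝ) ^ 3 * ∑ h ∈ Ico 1 N, ‖expSum S (h * α)‖ ^ 4 := by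
    calc ((#S : ℝ) / (4 * N)) ^ 4 ≤ (∑ h ∈ Ico 1 N, ‖expSum S (h * α)‖) ^ 4 := by gcongr
      _ ≤ _ := h2
      _ ≤ _ := by
        gcongr
        exact Nat.sub_le _ _
  rw [div_le_iff₀ (by positivity)]
  rw [div_pow, div_le_iff₀ (by positivity)] at h3
  calc (#S : ℝ) ^ 4 ≤ _ := h3
    _ = _ := by ring

/-- Many rotations with gaps force a large additive energy. -/
theorem gap_energy (S : Finset ℕ) {x : ℕ} (hx : 0 < x) (hSx : S ⊆ range x) {ε : ℝ} (hε : 0 < ε)
    {N : ℕ} (hN : 2 / ε ^ 2 ≤ N) (Φ : Finset ℝ) (hΦ : ∀ α ∈ Φ, 0 ≤ α ∧ α < 1) (β : ℝ → ℝ)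
    (hgap : ∀ α ∈ Φ, (#(S.filter (fun n : ℕ => Int.fract (α * n - β α) < ε)) : ℝ) ≤ #S / (4 * N))
    (hsep : ∀ s ∈ (Ico 1 N ×ˢ Φ).image (fun p => Int.fract ((p.1 : ℝ) * p.2)),
      ∀ t ∈ (Ico 1 N ×ˢ Φ).image (fun p => Int.fract ((p.1 : ℝ) * p.2)), s ≠ t →
        1 / (x : ℝ) ≤ |s - t|) :
    (#Φ : ℝ) * (#S : ℝ) ^ 4 ≤ 13568 * N ^ 9 * x *
      ∑ n ∈ range (2 * x), ((repF S n : ℕ) : ℝ) ^ 2 := by
  classical
  have hNpos : (0 : ℝ) < N := lt_of_lt_of_le (by positivity) hN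
  set T' : Finset ℝ := (Ico 1 N ×ˢ Φ).image (fun p => Int.fract ((p.1 : ℝ) * p.2)) with hT'
  have hsieve := energy_large_sieve S hx hSx T' (by
    intro t ht
    rw [hT', mem_image] at ht
    obtain ⟨p, _, rfl⟩ := ht
    exact ⟨Int.fract_nonneg _, (Int.fract_lt_one _).le⟩) hsep
  have h1 : (#Φ : ℝ) * ((#S : ℝ) ^ 4 / (256 * N ^ 7)) ≤
      ∑ p ∈ Ico 1 N ×ˢ Φ, ‖expSum S (Int.fract ((p.1 : ℝ) * p.2))‖ ^ 4 := by
    rw [Finset.sum_product_right]
    have h2 : ∀ α ∈ Φ, (#S : ℝ) ^ 4 / (256 * N ^ 7) ≤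
        ∑ h ∈ Ico 1 N, ‖expSum S (Int.fract ((h : ℝ) * α))‖ ^ 4 := by
      intro α hα
      refine (gap_fourth S hε hN (hgap α hα)).trans (le_of_eq ?_)
      refine Finset.sum_congr rfl fun h _ => ?_
      have h3 : (h : ℝ) * α = Int.fract ((h : ℝ) * α) + ⌊(h : ℝ) * α⌋ := by
        rw [Int.fract_add_floor]
      conv_lhs => rw [h3]
      rw [norm_expSum_add_int]
    calc (#Φ : ℝ) * ((#S : ℝ) ^ 4 / (256 * N ^ 7)) = ∑ _α ∈ Φ, (#S : ℝ) ^ 4 / (256 * N ^ 7) := by
          rw [Finset.sum_const, nsmul_eq_mul]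
      _ ≤ _ := Finset.sum_le_sum h2
  have h2 : ∑ p ∈ Ico 1 N ×ˢ Φ, ‖expSum S (Int.fract ((p.1 : ℝ) * p.2))‖ ^ 4 ≤
      (N : ℝ) ^ 2 * ∑ t ∈ T', ‖expSum S t‖ ^ 4 := by
    rw [← Finset.sum_fiberwise_of_maps_to (s := Ico 1 N ×ˢ Φ) (t := T')
      (g := fun p => Int.fract ((p.1 : ℝ) * p.2)) (fun p hp => mem_image_of_mem _ hp),
      Finset.mul_sum]
    refine Finset.sum_le_sum fun t _ => ?_
    rw [Finset.sum_congr rfl (g := fun _ => ‖expSum S t‖ ^ 4) (fun p hp => by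
      rw [(mem_filter.1 hp).2]), Finset.sum_const, nsmul_eq_mul]
    refine mul_le_mul_of_nonneg_right ?_ (by positivity)
    have h3 : #{p ∈ Ico 1 N ×ˢ Φ | Int.fract ((p.1 : ℝ) * p.2) = t} ≤ #(range N ×ˢ range N) := by
      refine card_le_card_of_injOn (fun p => (p.1, ⌊(p.1 : ℝ) * p.2⌋₊)) ?_ ?_
      · intro p hp
        rw [mem_coe, mem_filter, mem_product, mem_Ico] at hp
        obtain ⟨⟨⟨h4, h5⟩, h6⟩, _⟩ := hp
        have h7 := hΦ _ h6
        have h8 : (0 : ℝ) < p.1 := by exact_mod_cast h4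
        rw [mem_coe, mem_product, mem_range, mem_range]
        refine ⟨h5, ?_⟩
        show ⌊(p.1 : ℝ) * p.2⌋₊ < N
        rw [Nat.floor_lt (by nlinarith)]
        have h9 : (p.1 : ℝ) ≤ N := by exact_mod_cast h5.le
        nlinarith
      · intro p hp p' hp' hpp
        rw [mem_coe, mem_filter, mem_product, mem_Ico] at hp hp'
        obtain ⟨⟨⟨h4, h5⟩, h6⟩, h7⟩ := hp
        obtain ⟨⟨⟨h4', h5'⟩, h6'⟩, h7'⟩ := hp'
        have h8 := (Prod.ext_iff.1 hpp).1
        have h9 := (Prod.ext_iff.1 hpp).2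
        simp only at h8 h9
        have h10 : (0 : ℝ) < p.1 := by exact_mod_cast h4
        have h12 := hΦ _ h6
        have h12' := hΦ _ h6'
        have h13 : (p.1 : ℝ) * p.2 = p'.1 * p'.2 := by
          have e1 : (⌊(p.1 : ℝ) * p.2⌋₊ : ℝ) + Int.fract ((p.1 : ℝ) * p.2) = (p.1 : ℝ) * p.2 := by
            rw [natCast_floor_eq_intCast_floor (by nlinarith)]
            exact Int.floor_add_fract _
          have e2 : (⌊(p'.1 : ℝ) * p'.2⌋₊ : ℝ) + Int.fract ((p'.1 : ℝ) * p'.2) =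
              (p'.1 : ℝ) * p'.2 := by
            have : (0 : ℝ) < p'.1 := by exact_mod_cast h4'
            rw [natCast_floor_eq_intCast_floor (by nlinarith)]
            exact Int.floor_add_fract _
          rw [← e1, ← e2, h9, h7, h7']
        rw [← h8] at h13
        have h14 := mul_left_cancel₀ h10.ne' h13
        exact Prod.ext h8 h14
    rw [card_product, card_range] at h3
    have h4 : ((#{p ∈ Ico 1 N ×ˢ Φ | Int.fract ((p.1 : ℝ) * p.2) = t} : ℕ) : ℝ) ≤
        ((N * N : ℕ) : ℝ) := by exact_mod_cast h3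
    push_cast at h4
    rw [sq]
    exact h4
  have h3 : (#Φ : ℝ) * ((#S : ℝ) ^ 4 / (256 * N ^ 7)) ≤ (N : ℝ) ^ 2 * (53 * x *
      ∑ n ∈ range (2 * x), ((repF S n : ℕ) : ℝ) ^ 2) := by
    refine h1.trans (h2.trans ?_)
    gcongr
  have h4 : (#Φ : ℝ) * ((#S : ℝ) ^ 4 / (256 * N ^ 7)) =
      (#Φ : ℝ) * (#S : ℝ) ^ 4 / (256 * N ^ 7) := by ring
  rw [h4, div_le_iff₀ (by positivity)] at h3
  calc (#Φ : ℝ) * (#S : ℝ) ^ 4 ≤ _ := h3
    _ = _ := by ring

/-- a positive lower bound for the distances in a finite set of reals -/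
theorem exists_sep (T : Finset ℝ) :
    ∀ᶠ x : ℕ in atTop, ∀ s ∈ T, ∀ t ∈ T, s ≠ t → 1 / (x : ℝ) ≤ |s - t| := by
  have h1 : ∀ s ∈ T, ∀ᶠ x : ℕ in atTop, ∀ t ∈ T, s ≠ t → 1 / (x : ℝ) ≤ |s - t| := by
    intro s _
    rw [Filter.eventually_all_finset]
    intro t _
    by_cases h : s = t
    · exact Filter.Eventually.of_forall fun x h' => absurd h h'
    · have h2 : 0 < |s - t| := abs_pos.2 (sub_ne_zero.2 h)
      have h3 : Tendsto (fun x : ℕ => 1 / (x : ℝ)) atTop (nhds 0) :=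
        tendsto_one_div_atTop_nhds_zero_nat
      filter_upwards [h3.eventually (gt_mem_nhds h2)] with x hx _
      exact le_of_lt hx
  rw [Filter.eventually_all_finset]
  exact h1

/-- THE GAP THEOREM. A set `A` which is not null and for infinitely many rotations `α` avoids, up
to a null set, an interval of length `ε` of the circle has a number of representations which is
unbounded in mean square. -/
theorem gap_main (A : Set ℕ) (hA : ¬ Null A) {ε : ℝ} (hε : 0 < ε) (Φ : Set ℝ) (hΦ : Φ.Infinite)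
    (hΦ1 : Φ ⊆ Set.Ico 0 1)
    (hgap : ∀ α ∈ Φ, ∃ β : ℝ, Null {n | n ∈ A ∧ Int.fract (α * n - β) < ε}) (K : ℝ) :
    ∃ᶠ x : ℕ in atTop, K * x < ∑ n ∈ range (2 * x), ((repF (below A x) n : ℕ) : ℝ) ^ 2 := by
  classical
  obtain ⟨δ, hδ, hfreq⟩ := not_null_iff.1 hA
  choose! β hβ using hgap
  obtain ⟨N, hN⟩ := exists_nat_ge (2 / ε ^ 2)
  have hNpos : (0 : ℝ) < N := lt_of_lt_of_le (by positivity) hN
  obtain ⟨J, hJ⟩ := exists_nat_gt (13568 * N ^ 9 * (|K| + 1) / δ ^ 4)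
  obtain ⟨F, hFΦ, hFJ⟩ := hΦ.exists_subset_card_eq J
  have hsep := exists_sep ((Ico 1 N ×ˢ F).image (fun p => Int.fract ((p.1 : ℝ) * p.2)))
  have hnull : ∀ᶠ x : ℕ in atTop, ∀ α ∈ F,
      (#(below {n | n ∈ A ∧ Int.fract (α * n - β α) < ε} x) : ℝ) ≤ δ / (4 * N) * √x := by
    rw [Filter.eventually_all_finset]
    intro α hα
    exact hβ α (hFΦ hα) _ (by positivity)
  refine (hfreq.and_eventually (hsep.and (hnull.and (eventually_gt_atTop 0)))).mono ?_
  rintro x ⟨hx1, hx2, hx3, hx4⟩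
  have hx4' : (0 : ℝ) < x := by exact_mod_cast hx4
  have hen := gap_energy (below A x) hx4 (below_subset_range A x) hε hN F
    (fun α hα => hΦ1 (hFΦ hα)) β (by
      intro α hα
      have h1 := hx3 α hα
      have h2 : #((below A x).filter (fun n : ℕ => Int.fract (α * n - β α) < ε)) ≤
          #(below {n | n ∈ A ∧ Int.fract (α * n - β α) < ε} x) := by
        refine card_le_card fun n hn => ?_
        rw [mem_filter, mem_below] at hn
        rw [mem_below]
        exact ⟨hn.1.1, hn.1.2, hn.2⟩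
      calc (#((below A x).filter (fun n : ℕ => Int.fract (α * n - β α) < ε)) : ℝ) ≤
          #(below {n | n ∈ A ∧ Int.fract (α * n - β α) < ε} x) := by exact_mod_cast h2
        _ ≤ δ / (4 * N) * √x := h1
        _ = δ * √x / (4 * N) := by ring
        _ ≤ #(below A x) / (4 * N) := by gcongr) hx2
  rw [hFJ] at hen
  set E : ℝ := ∑ n ∈ range (2 * x), ((repF (below A x) n : ℕ) : ℝ) ^ 2 with hE
  by_contra hcon
  push Not at hcon
  have hxK : K * x ≤ (|K| + 1) * x := by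
    have := le_abs_self K
    nlinarith
  have h1 : (δ * √x) ^ 4 = δ ^ 4 * x ^ 2 := by
    have : √(x : ℝ) ^ 4 = x ^ 2 := by
      have h2 : √(x : ℝ) ^ 2 = x := Real.sq_sqrt hx4'.le
      calc √(x : ℝ) ^ 4 = (√(x : ℝ) ^ 2) ^ 2 := by ring
        _ = _ := by rw [h2]
    rw [mul_pow, this]
  have h2 : δ ^ 4 * (x : ℝ) ^ 2 ≤ (#(below A x) : ℝ) ^ 4 := by
    rw [← h1]
    gcongr
  rw [div_lt_iff₀ (by positivity)] at hJ
  have h3 : (J : ℝ) * (δ ^ 4 * (x : ℝ) ^ 2) ≤ 13568 * N ^ 9 * x * ((|K| + 1) * x) := by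
    calc (J : ℝ) * (δ ^ 4 * (x : ℝ) ^ 2) ≤ J * (#(below A x) : ℝ) ^ 4 := by gcongr
      _ ≤ 13568 * N ^ 9 * x * E := hen
      _ ≤ 13568 * N ^ 9 * x * ((|K| + 1) * x) := by
        gcongr
        linarith
  have h4 : (13568 * N ^ 9 * (|K| + 1)) * (x : ℝ) ^ 2 < (J * δ ^ 4) * (x : ℝ) ^ 2 := by
    gcongr
  nlinarith

/-- the number of representations is unbounded -/
theorem gap_unbounded (A : Set ℕ) (hA : ¬ Null A) {ε : ℝ} (hε : 0 < ε) (Φ : Set ℝ)
    (hΦ : Φ.Infinite) (hΦ1 : Φ ⊆ Set.Ico 0 1)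
    (hgap : ∀ α ∈ Φ, ∃ β : ℝ, Null {n | n ∈ A ∧ Int.fract (α * n - β) < ε}) (K : ℕ) :
    ∃ n, K < rep A n := by
  by_contra hcon
  push Not at hcon
  have h1 := gap_main A hA hε Φ hΦ hΦ1 hgap (2 * (K : ℝ) ^ 2)
  obtain ⟨x, hx⟩ := h1.exists
  have h2 : ∑ n ∈ range (2 * x), ((repF (below A x) n : ℕ) : ℝ) ^ 2 ≤
      ∑ _n ∈ range (2 * x), (K : ℝ) ^ 2 := by
    refine Finset.sum_le_sum fun n _ => ?_
    have : ((repF (below A x) n : ℕ) : ℝ) ≤ K := by
      exact_mod_cast (repF_below_le A x n).trans (hcon n)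
    gcongr
  rw [Finset.sum_const, card_range, nsmul_eq_mul] at h2
  push_cast at h2
  linarith

end Pool.Agent.Helper7.ET
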