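import Pool.Agent.Helper7.ET.Cone

/-!
A Hölder inequality for exponential sums twisted by products of cosine series with small
coefficients.
-/

set_option autoImplicit false

open Finset Real

namespace Pool.Agent.Helper7.ET

open Pool.Agent.Helper38.RC (expSum)

/-- the coefficients multiplied with a character -/
noncomputable def twist (z : ℕ → ℂ) (τ : ℝ) : ℕ → ℂ := fun a => z a * e ((a : ℝ) * τ)

/-- the product of four coefficients -/
noncomputable def quart (z : ℕ → ℂ) (p : (ℕ × ℕ) × (ℕ × ℕ)) : ℂ :=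
  (z p.1.1 * z p.1.2) * ((starRingEnd ℂ) (z p.2.1) * (starRingEnd ℂ) (z p.2.2))

theorem conj_e (v : ℝ) : (starRingEnd ℂ) (e v) = e (-v) := by
  unfold e
  rw [← Complex.exp_conj]
  congr 1
  rw [map_mul, Complex.conj_I, Complex.conj_ofReal]
  push_cast
  ring

theorem twist_zero (z : ℕ → ℂ) : twist z 0 = z := by
  funext a
  simp [twist, e_zero]

theorem quart_twist (z : ℕ → ℂ) (τ : ℝ) (p : (ℕ × ℕ) × (ℕ × ℕ)) :
    quart (twist z τ) p = quart z p * e ((sv p : ℝ) * τ) := by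
  have h : e ((sv p : ℝ) * τ) = (e ((p.1.1 : ℝ) * τ) * e ((p.1.2 : ℝ) * τ)) *
      (e (-((p.2.1 : ℝ) * τ)) * e (-((p.2.2 : ℝ) * τ))) := by
    rw [← e_add, ← e_add, ← e_add]
    unfold sv
    push_cast
    congr 1
    ring
  unfold quart twist
  rw [map_mul, map_mul, conj_e, conj_e, h]
  ring

/-- the weighted quartic form -/
noncomputable def form (S : Finset ℕ) (V : ℝ → ℝ) (M : ℕ → ℝ) (k : ℕ) (z : ℕ → ℂ) : ℝ :=
  (∑ p ∈ (S ×ˢ S) ×ˢ (S ×ˢ S), quart z p * ((wtV V M k (sv p) : ℝ) : ℂ)).re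
where
  /-- the weight -/
  wtV (V : ℝ → ℝ) (M : ℕ → ℝ) (k : ℕ) (s : ℤ) : ℝ := ∏ j ∈ range k, V (s / M j)

theorem form_zero (S : Finset ℕ) (V : ℝ → ℝ) (M : ℕ → ℝ) (z : ℕ → ℂ) :
    form S V M 0 z = ‖∑ a ∈ S, z a‖ ^ 4 := by
  have h1 : ∑ p ∈ (S ×ˢ S) ×ˢ (S ×ˢ S), quart z p = ((‖∑ a ∈ S, z a‖ ^ 4 : ℝ) : ℂ) := by
    have h2 : ((‖∑ a ∈ S, z a‖ ^ 4 : ℝ) : ℂ) =
        ((∑ a ∈ S, z a) * (∑ a ∈ S, z a)) *
          ((starRingEnd ℂ) (∑ a ∈ S, z a) * (starRingEnd ℂ) (∑ a ∈ S, z a)) := by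
      have h3 : ((‖∑ a ∈ S, z a‖ ^ 4 : ℝ) : ℂ) =
          ((∑ a ∈ S, z a) * (starRingEnd ℂ) (∑ a ∈ S, z a)) *
          ((∑ a ∈ S, z a) * (starRingEnd ℂ) (∑ a ∈ S, z a)) := by
        rw [Complex.mul_conj, Complex.normSq_eq_norm_sq, ← Complex.ofReal_mul]
        congr 1
        ring
      rw [h3]
      ring
    rw [h2, map_sum, Finset.sum_mul_sum, Finset.sum_mul_sum, ← Finset.sum_product',
      ← Finset.sum_product', Finset.sum_mul_sum, ← Finset.sum_product']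
    rfl
  unfold form form.wtV
  simp only [Finset.range_zero, Finset.prod_empty, Complex.ofReal_one, mul_one]
  rw [h1, Complex.ofReal_re]

/-- the cosine series of the weighted form -/
theorem form_succ (S : Finset ℕ) {V : ℝ → ℝ}
    (hV : ∀ u, HasSum (fun h : ℕ => Real.cos (2 * π * (h + 1) * u) / ((h : ℝ) + 1) ^ 2) (V u - 1))
    (M : ℕ → ℝ) (k : ℕ) (z : ℕ → ℂ) :
    HasSum (fun h : ℕ => 1 / ((h : ℝ) + 1) ^ 2 *
      ((form S V M k (twist z (((h : ℝ) + 1) / M k)) +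
        form S V M k (twist z (-(((h : ℝ) + 1) / M k)))) / 2))
      (form S V M (k + 1) z - form S V M k z) := by
  have h1 : HasSum (fun h : ℕ => (∑ p ∈ (S ×ˢ S) ×ˢ (S ×ˢ S),
      quart z p * ((form.wtV V M k (sv p) : ℝ) : ℂ) *
        (((Real.cos (2 * π * (h + 1) * ((sv p : ℝ) / M k)) / ((h : ℝ) + 1) ^ 2 : ℝ)) : ℂ)).re)
      (∑ p ∈ (S ×ˢ S) ×ˢ (S ×ˢ S), quart z p * ((form.wtV V M k (sv p) : ℝ) : ℂ) *
        (((V ((sv p : ℝ) / M k) - 1 : ℝ)) : ℂ)).re := by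
    refine Complex.hasSum_re (hasSum_sum fun p _ => ?_)
    refine HasSum.mul_left _ ?_
    exact Complex.hasSum_ofReal.2 (hV _)
  have h2 : (∑ p ∈ (S ×ˢ S) ×ˢ (S ×ˢ S), quart z p * ((form.wtV V M k (sv p) : ℝ) : ℂ) *
        (((V ((sv p : ℝ) / M k) - 1 : ℝ)) : ℂ)).re = form S V M (k + 1) z - form S V M k z := by
    unfold form
    rw [← Complex.sub_re, ← Finset.sum_sub_distrib]
    congr 1
    refine Finset.sum_congr rfl fun p _ => ?_
    unfold form.wtV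
    rw [Finset.prod_range_succ]
    push_cast
    ring
  rw [h2] at h1
  convert h1 using 2 with h
  have h3 : ∑ p ∈ (S ×ˢ S) ×ˢ (S ×ˢ S), quart z p * ((form.wtV V M k (sv p) : ℝ) : ℂ) *
      (((Real.cos (2 * π * (h + 1) * ((sv p : ℝ) / M k)) / ((h : ℝ) + 1) ^ 2 : ℝ)) : ℂ) =
      ((1 / ((h : ℝ) + 1) ^ 2 / 2 : ℝ) : ℂ) *
        ((∑ p ∈ (S ×ˢ S) ×ˢ (S ×ˢ S), quart (twist z (((h : ℝ) + 1) / M k)) p *
          ((form.wtV V M k (sv p) : ℝ) : ℂ)) +
        (∑ p ∈ (S ×ˢ S) ×ˢ (S ×ˢ S), quart (twist z (-(((h : ℝ) + 1) / M k))) p *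
          ((form.wtV V M k (sv p) : ℝ) : ℂ))) := by
    rw [← Finset.sum_add_distrib, Finset.mul_sum]
    refine Finset.sum_congr rfl fun p _ => ?_
    rw [quart_twist, quart_twist]
    have e1 : 2 * π * (h + 1) * ((sv p : ℝ) / M k) =
        2 * π * ((sv p : ℝ) * (((h : ℝ) + 1) / M k)) := by ring
    have e2 : (sv p : ℝ) * (-(((h : ℝ) + 1) / M k)) = -((sv p : ℝ) * (((h : ℝ) + 1) / M k)) := by
      ring
    rw [e1, e2, Complex.ofReal_div, cos_eq_e]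
    push_cast
    ring
  rw [h3, Complex.re_ofReal_mul, Complex.add_re]
  unfold form
  ring

theorem hasSum_inv_sq : HasSum (fun h : ℕ => 1 / ((h : ℝ) + 1) ^ 2) (π ^ 2 / 6) := by
  have h := (hasSum_nat_add_iff' 1).2 hasSum_zeta_two
  rw [Finset.sum_range_one] at h
  have h0 : π ^ 2 / 6 - 1 / ((0 : ℕ) : ℝ) ^ 2 = π ^ 2 / 6 := by simp
  rw [h0] at h
  have h1 : (fun n : ℕ => 1 / ((n : ℝ) + 1) ^ 2) = fun n : ℕ => 1 / ((n + 1 : ℕ) : ℝ) ^ 2 := by
    funext n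
    push_cast
    rfl
  rw [h1]
  exact h

/-- THE HÖLDER INEQUALITY for products of cosine series. -/
theorem holder (S : Finset ℕ) {V : ℝ → ℝ}
    (hV : ∀ u, HasSum (fun h : ℕ => Real.cos (2 * π * (h + 1) * u) / ((h : ℝ) + 1) ^ 2) (V u - 1))
    (M : ℕ → ℝ) {φ : ℕ → ℝ → ℝ} {α : ℕ → ℕ → ℝ} {c : ℕ → ℝ} {μ : ℝ} (hμ : 0 ≤ μ)
    (hφ : ∀ j u, HasSum (fun h : ℕ => α j h * Real.cos (2 * π * (h + 1) * (u - c j))) (φ j u - 1))
    (hα : ∀ j h, |α j h| ≤ μ ^ 3 / ((h : ℝ) + 1) ^ 2) (k : ℕ) :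
    ∀ z : ℕ → ℂ, ‖∑ a ∈ S, z a * ((∏ j ∈ range k, φ j (a / M j) : ℝ) : ℂ)‖ ^ 4 ≤
      (1 + μ ^ 4 * (π ^ 2 / 6)) ^ (3 * k) * form S V M k z := by
  set D : ℝ := 1 + μ ^ 4 * (π ^ 2 / 6) with hD
  have hDpos : 0 < D := by positivity
  induction k with
  | zero =>
    intro z
    rw [form_zero]
    simp
  | succ k ih =>
    intro z
    set P : ℕ → ℝ := fun a => ∏ j ∈ range k, φ j (a / M j) with hP
    set X : ℝ → ℂ := fun τ => ∑ a ∈ S, twist z τ a * ((P a : ℝ) : ℂ) with hX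
    have hXle : ∀ τ, ‖X τ‖ ^ 4 ≤ D ^ (3 * k) * form S V M k (twist z τ) := fun τ => ih (twist z τ)
    have hform : ∀ τ, 0 ≤ form S V M k (twist z τ) := by
      intro τ
      have h1 := hXle τ
      have h2 : 0 ≤ D ^ (3 * k) * form S V M k (twist z τ) := le_trans (by positivity) h1
      exact nonneg_of_mul_nonneg_right h2 (by positivity)
    have hform0 : 0 ≤ form S V M k z := by
      have := hform 0
      rwa [twist_zero] at this
    have hsucc := form_succ S hV M k z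
    have hN : 0 ≤ form S V M (k + 1) z := by
      have h1 : 0 ≤ form S V M (k + 1) z - form S V M k z := by
        refine hasSum_le (fun h => ?_) hasSum_zero hsucc
        have h2 := hform (((h : ℝ) + 1) / M k)
        have h3 := hform (-(((h : ℝ) + 1) / M k))
        positivity
      linarith
    set Y : ℂ := ∑ a ∈ S, z a * ((∏ j ∈ range (k + 1), φ j (a / M j) : ℝ) : ℂ) with hY
    by_cases hY0 : ‖Y‖ = 0
    · rw [hY0]
      have : (0 : ℝ) ^ 4 = 0 := by norm_num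
      rw [this]
      positivity
    have hYpos : 0 < ‖Y‖ := lt_of_le_of_ne (norm_nonneg _) (Ne.symm hY0)
    set l : ℝ := ‖Y‖ / D with hl
    have hlpos : 0 < l := by positivity
    -- the expansion of `Y`
    have hYX : HasSum (fun h : ℕ => ((α k h / 2 : ℝ) : ℂ) *
        (e (-(((h : ℝ) + 1) * c k)) * X (((h : ℝ) + 1) / M k) +
          e (((h : ℝ) + 1) * c k) * X (-(((h : ℝ) + 1) / M k)))) (Y - X 0) := by
      have h1 : HasSum (fun h : ℕ => ∑ a ∈ S, z a * ((P a : ℝ) : ℂ) *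
          (((α k h * Real.cos (2 * π * (h + 1) * ((a : ℝ) / M k - c k)) : ℝ)) : ℂ))
          (∑ a ∈ S, z a * ((P a : ℝ) : ℂ) * (((φ k ((a : ℝ) / M k) - 1 : ℝ)) : ℂ)) := by
        refine hasSum_sum fun a _ => ?_
        refine HasSum.mul_left _ ?_
        exact Complex.hasSum_ofReal.2 (hφ k _)
      have h2 : ∑ a ∈ S, z a * ((P a : ℝ) : ℂ) * (((φ k ((a : ℝ) / M k) - 1 : ℝ)) : ℂ) =
          Y - X 0 := by
        rw [hY, hX]
        simp only [twist_zero]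
        rw [← Finset.sum_sub_distrib]
        refine Finset.sum_congr rfl fun a _ => ?_
        simp only [hP]
        rw [Finset.prod_range_succ]
        push_cast
        ring
      rw [h2] at h1
      convert h1 using 2 with h
      simp only [hX]
      rw [Finset.mul_sum, Finset.mul_sum, ← Finset.sum_add_distrib, Finset.mul_sum]
      refine Finset.sum_congr rfl fun a _ => ?_
      have e1 : 2 * π * (h + 1) * ((a : ℝ) / M k - c k) =
          2 * π * ((a : ℝ) * (((h : ℝ) + 1) / M k) + -(((h : ℝ) + 1) * c k)) := by ring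
      have e2 : -((a : ℝ) * (((h : ℝ) + 1) / M k) + -(((h : ℝ) + 1) * c k)) =
          (a : ℝ) * (-(((h : ℝ) + 1) / M k)) + ((h : ℝ) + 1) * c k := by ring
      rw [e1, Complex.ofReal_mul, cos_eq_e, e2, e_add, e_add]
      unfold twist
      push_cast
      ring
    -- termwise bound
    have hbound : HasSum (fun h : ℕ => (D ^ (3 * k) * (1 / ((h : ℝ) + 1) ^ 2 *
        ((form S V M k (twist z (((h : ℝ) + 1) / M k)) +
          form S V M k (twist z (-(((h : ℝ) + 1) / M k)))) / 2)) / l ^ 3 +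
        3 * l * μ ^ 4 * (1 / ((h : ℝ) + 1) ^ 2)) / 4)
        ((D ^ (3 * k) * (form S V M (k + 1) z - form S V M k z) / l ^ 3 +
          3 * l * μ ^ 4 * (π ^ 2 / 6)) / 4) :=
      (((hsucc.mul_left _).div_const _).add (hasSum_inv_sq.mul_left _)).div_const _
    have hmain := HasSum.norm_le_of_bounded hYX hbound (fun h => by
      set X₁ : ℝ := ‖X (((h : ℝ) + 1) / M k)‖ with hX₁
      set X₂ : ℝ := ‖X (-(((h : ℝ) + 1) / M k))‖ with hX₂
      have hh : (0 : ℝ) < (h : ℝ) + 1 := by positivity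
      have h1 : ‖((α k h / 2 : ℝ) : ℂ) *
        (e (-(((h : ℝ) + 1) * c k)) * X (((h : ℝ) + 1) / M k) +
          e (((h : ℝ) + 1) * c k) * X (-(((h : ℝ) + 1) / M k)))‖ ≤
          (μ ^ 3 / ((h : ℝ) + 1) ^ 2 / 2) * (X₁ + X₂) := by
        rw [norm_mul, Complex.norm_real, Real.norm_eq_abs, abs_div]
        have h2 := norm_add_le (e (-(((h : ℝ) + 1) * c k)) * X (((h : ℝ) + 1) / M k))
          (e (((h : ℝ) + 1) * c k) * X (-(((h : ℝ) + 1) / M k)))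
        rw [norm_mul, norm_mul, norm_e, norm_e, one_mul, one_mul] at h2
        have h3 : |(2 : ℝ)| = 2 := abs_of_pos (by norm_num)
        rw [h3]
        have h4 := hα k h
        gcongr
      have hy : ∀ y : ℝ, 0 ≤ y → μ ^ 3 * y ≤ (y ^ 4 / l ^ 3 + 3 * l * μ ^ 4) / 4 := by
        intro y hy
        rcases hμ.eq_or_lt with h0 | hpos
        · rw [← h0]
          have : (0 : ℝ) ^ 3 * y = 0 := by norm_num
          rw [this]
          positivity
        · have h2 := amgm hy (show 0 < l * μ by positivity)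
          have h3 := mul_le_mul_of_nonneg_left h2 (show 0 ≤ μ ^ 3 by positivity)
          refine h3.trans (le_of_eq ?_)
          field_simp
      have h5 := hy X₁ (norm_nonneg _)
      have h6 := hy X₂ (norm_nonneg _)
      have h7 := hXle (((h : ℝ) + 1) / M k)
      have h8 := hXle (-(((h : ℝ) + 1) / M k))
      refine h1.trans ?_
      have h9 : (μ ^ 3 / ((h : ℝ) + 1) ^ 2 / 2) * (X₁ + X₂) =
          1 / ((h : ℝ) + 1) ^ 2 * ((μ ^ 3 * X₁ + μ ^ 3 * X₂) / 2) := by ring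
      rw [h9]
      have h10 : (μ ^ 3 * X₁ + μ ^ 3 * X₂) / 2 ≤
          (D ^ (3 * k) * ((form S V M k (twist z (((h : ℝ) + 1) / M k)) +
          form S V M k (twist z (-(((h : ℝ) + 1) / M k)))) / 2) / l ^ 3 + 3 * l * μ ^ 4) / 4 := by
        have h11 : (X₁ ^ 4 + X₂ ^ 4) / 2 / l ^ 3 ≤
            D ^ (3 * k) * ((form S V M k (twist z (((h : ℝ) + 1) / M k)) +
              form S V M k (twist z (-(((h : ℝ) + 1) / M k)))) / 2) / l ^ 3 := by
          gcongr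
          linarith
        have h12 : (X₁ ^ 4 + X₂ ^ 4) / 2 / l ^ 3 = (X₁ ^ 4 / l ^ 3 + X₂ ^ 4 / l ^ 3) / 2 := by ring
        rw [h12] at h11
        linarith
      have h13 := mul_le_mul_of_nonneg_left h10 (show 0 ≤ 1 / ((h : ℝ) + 1) ^ 2 by positivity)
      refine h13.trans (le_of_eq ?_)
      ring)
    have hX0 : ‖X 0‖ ≤ (D ^ (3 * k) * form S V M k z / l ^ 3 + 3 * l) / 4 := by
      have h1 := amgm (norm_nonneg (X 0)) hlpos
      have h2 := hXle 0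
      rw [twist_zero] at h2
      have h3 : ‖X 0‖ ^ 4 / l ^ 3 ≤ D ^ (3 * k) * form S V M k z / l ^ 3 := by gcongr
      linarith
    have htri : ‖Y‖ ≤ ‖Y - X 0‖ + ‖X 0‖ := by
      have := norm_add_le (Y - X 0) (X 0)
      rwa [sub_add_cancel] at this
    have hlD : l * D = ‖Y‖ := by
      rw [hl]
      field_simp
    have hfin : ‖Y‖ ≤ D ^ (3 * k) * form S V M (k + 1) z / l ^ 3 := by
      have h1 : (D ^ (3 * k) * (form S V M (k + 1) z - form S V M k z) / l ^ 3 +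
          3 * l * μ ^ 4 * (π ^ 2 / 6)) / 4 + (D ^ (3 * k) * form S V M k z / l ^ 3 + 3 * l) / 4 =
          (D ^ (3 * k) * form S V M (k + 1) z / l ^ 3 + 3 * (l * D)) / 4 := by
        rw [hD]
        ring
      rw [hlD] at h1
      linarith
    rw [le_div_iff₀ (by positivity)] at hfin
    have h14 : ‖Y‖ * l ^ 3 = ‖Y‖ ^ 4 / D ^ 3 := by
      rw [hl, div_pow]
      ring
    rw [h14, div_le_iff₀ (by positivity)] at hfin
    calc ‖Y‖ ^ 4 ≤ D ^ (3 * k) * form S V M (k + 1) z * D ^ 3 := hfin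
      _ = D ^ (3 * (k + 1)) * form S V M (k + 1) z := by ring

/-- the case of constant coefficients -/
theorem holder_one (S : Finset ℕ) {V : ℝ → ℝ}
    (hV : ∀ u, HasSum (fun h : ℕ => Real.cos (2 * π * (h + 1) * u) / ((h : ℝ) + 1) ^ 2) (V u - 1))
    (M : ℕ → ℝ) {φ : ℕ → ℝ → ℝ} {α : ℕ → ℕ → ℝ} {c : ℕ → ℝ} {μ : ℝ} (hμ : 0 ≤ μ)
    (hφ : ∀ j u, HasSum (fun h : ℕ => α j h * Real.cos (2 * π * (h + 1) * (u - c j))) (φ j u - 1))
    (hα : ∀ j h, |α j h| ≤ μ ^ 3 / ((h : ℝ) + 1) ^ 2) (k : ℕ) :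
    (∑ a ∈ S, ∏ j ∈ range k, φ j (a / M j)) ^ 4 ≤ (1 + 2 * μ ^ 4) ^ (3 * k) *
      ∑ p ∈ (S ×ˢ S) ×ˢ (S ×ˢ S), ∏ j ∈ range k,
        V (((p.1.1 : ℝ) + p.1.2 - (p.2.1 + p.2.2)) / M j) := by
  have h := holder S hV M hμ hφ hα k (fun _ => 1)
  have h1 : ‖∑ a ∈ S, (fun _ : ℕ => (1 : ℂ)) a * ((∏ j ∈ range k, φ j (a / M j) : ℝ) : ℂ)‖ ^ 4 =
      (∑ a ∈ S, ∏ j ∈ range k, φ j (a / M j)) ^ 4 := by
    have h2 : ∑ a ∈ S, (fun _ : ℕ => (1 : ℂ)) a * ((∏ j ∈ range k, φ j (a / M j) : ℝ) : ℂ) =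
        ((∑ a ∈ S, ∏ j ∈ range k, φ j (a / M j) : ℝ) : ℂ) := by
      rw [Complex.ofReal_sum]
      refine Finset.sum_congr rfl fun a _ => ?_
      simp
    rw [h2, Complex.norm_real, Real.norm_eq_abs]
    have h3 : ∀ y : ℝ, |y| ^ 4 = y ^ 4 := by
      intro y
      calc |y| ^ 4 = (|y| ^ 2) ^ 2 := by ring
        _ = (y ^ 2) ^ 2 := by rw [sq_abs]
        _ = y ^ 4 := by ring
    exact h3 _
  have h2 : form S V M k (fun _ => 1) = ∑ p ∈ (S ×ˢ S) ×ˢ (S ×ˢ S), ∏ j ∈ range k,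
        V (((p.1.1 : ℝ) + p.1.2 - (p.2.1 + p.2.2)) / M j) := by
    unfold form
    have h3 : ∑ p ∈ (S ×ˢ S) ×ˢ (S ×ˢ S), quart (fun _ => 1) p *
        ((form.wtV V M k (sv p) : ℝ) : ℂ) = ((∑ p ∈ (S ×ˢ S) ×ˢ (S ×ˢ S), ∏ j ∈ range k,
        V (((p.1.1 : ℝ) + p.1.2 - (p.2.1 + p.2.2)) / M j) : ℝ) : ℂ) := by
      rw [Complex.ofReal_sum]
      refine Finset.sum_congr rfl fun p _ => ?_
      have h4 : quart (fun _ => 1) p = 1 := by simp [quart]
      rw [h4, one_mul]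
      unfold form.wtV sv
      push_cast
      rfl
    rw [h3, Complex.ofReal_re]
  rw [h1, h2] at h
  refine h.trans ?_
  have hQ : 0 ≤ ∑ p ∈ (S ×ˢ S) ×ˢ (S ×ˢ S), ∏ j ∈ range k,
        V (((p.1.1 : ℝ) + p.1.2 - (p.2.1 + p.2.2)) / M j) := by
    have h5 : 0 ≤ (1 + μ ^ 4 * (π ^ 2 / 6)) ^ (3 * k) * ∑ p ∈ (S ×ˢ S) ×ˢ (S ×ˢ S),
        ∏ j ∈ range k, V (((p.1.1 : ℝ) + p.1.2 - (p.2.1 + p.2.2)) / M j) :=
      le_trans (by positivity) h
    exact nonneg_of_mul_nonneg_right h5 (by positivity)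
  refine mul_le_mul_of_nonneg_right ?_ hQ
  have hpi : π ^ 2 / 6 ≤ 2 := by
    have h6 : π ≤ 3.15 := Real.pi_lt_d2.le
    have h7 := Real.pi_pos
    nlinarith
  refine pow_le_pow_left₀ (by positivity) ?_ _
  nlinarith [show 0 ≤ μ ^ 4 by positivity]

end Pool.Agent.Helper7.ET
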